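import Pool.Agent.KS6_41.QC.Base

set_option autoImplicit false

namespace Pool.Agent.KS6_41.QC

open Real Set Finset

noncomputable def X (n : ℕ) : ℝ := 32 * ((n : ℝ) + 1) ^ 2

def Bq (n : ℕ) : ℕ := 64 * (n + 1)

noncomputable def gb (n : ℕ) (x : ℝ) : ℝ := ∑ i ∈ range (n + 1), ph (Bq n ^ (i + 1)) (x + X n)

noncomputable def dgb (n : ℕ) (x : ℝ) : ℝ := ∑ i ∈ range (n + 1), dph (Bq n ^ (i + 1)) (x + X n)

noncomputable def f (x : ℝ) : ℝ := ∑' n, gb n x

noncomputable def df (x : ℝ) : ℝ := ∑' n, dgb n x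

theorem two_pi_lt : 2 * π < 7 := by linarith [pi_lt_d2]

theorem two_pi_gt : 6 < 2 * π := by linarith [pi_gt_three]

theorem one_le_B (n i : ℕ) : 1 ≤ Bq n ^ i := Nat.one_le_pow _ _ (by unfold Bq; omega)

theorem bd_gb (n i : ℕ) : Bd (fun x => ph (Bq n ^ (i + 1)) (x + X n))
    (fun x => dph (Bq n ^ (i + 1)) (x + X n)) ((Bq n : ℝ) ^ (i + 1)) (1 / 64) := by
  have h := bd_ph (Bq n ^ (i + 1)) (one_le_B n (i + 1))
  push_cast at h
  refine ⟨fun x => (h.hd (x + X n)).comp_add_const x (X n), fun x => h.h0 _, fun x => h.h0' _,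
    fun x => h.h1 _, fun x y => ?_⟩
  have := h.h2 (x + X n) (y + X n)
  rwa [add_sub_add_right_eq_sub] at this

theorem cl_of_le {y : ℝ} (h : y ≤ 0) : cl y = 0 := by
  unfold cl
  exact max_eq_left ((min_le_left _ _).trans h)

theorem cl_of_ge {y : ℝ} (h : 2 * π ≤ y) : cl y = 2 * π := by
  unfold cl
  rw [min_eq_right h]
  exact max_eq_right (by positivity)

theorem ph_zero {A : ℕ} {y : ℝ} (h : y ≤ 0 ∨ 2 * π ≤ y) : ph A y = 0 ∧ dph A y = 0 := by
  rcases h with h | h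
  · simp [ph, dph, cl_of_le h]
  · simp only [ph, dph, cl_of_ge h, cos_pi, sin_pi]
    simp

theorem gb_zero {n : ℕ} {x : ℝ} (h : x ≤ -X n ∨ -X n + 2 * π ≤ x) : gb n x = 0 ∧ dgb n x = 0 := by
  have h' : x + X n ≤ 0 ∨ 2 * π ≤ x + X n := by
    rcases h with h | h
    · left; linarith
    · right; linarith
  exact ⟨Finset.sum_eq_zero fun i _ => (ph_zero h').1, Finset.sum_eq_zero fun i _ => (ph_zero h').2⟩

theorem X_sep {m n : ℕ} (h : m < n) : X m + 96 ≤ X n := by
  unfold X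
  have h1 : (m : ℝ) + 1 ≤ n := by exact_mod_cast h
  have h2 : (0 : ℝ) ≤ m := by positivity
  nlinarith

theorem loc {a b : ℝ} (hab : b ≤ a + 16) :
    ∃ n, (∀ x ∈ Icc a b, f x = gb n x ∧ df x = dgb n x) ∧
      ((∃ y ∈ Icc a b, -X n < y ∧ y < -X n + 2 * π) ∨ ∀ x ∈ Icc a b, gb n x = 0 ∧ dgb n x = 0) := by
  by_cases H : ∃ n, ∃ y ∈ Icc a b, -X n < y ∧ y < -X n + 2 * π
  · obtain ⟨n, y, hy, h1, h2⟩ := H
    refine ⟨n, fun x hx => ?_, Or.inl ⟨y, hy, h1, h2⟩⟩
    have hz : ∀ m ≠ n, gb m x = 0 ∧ dgb m x = 0 := by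
      intro m hm
      apply gb_zero
      by_contra hcon
      push Not at hcon
      have := two_pi_lt
      rcases lt_or_gt_of_ne hm with h | h
      · have := X_sep h
        linarith [hx.1, hx.2, hy.1, hy.2, hcon.1, hcon.2]
      · have := X_sep h
        linarith [hx.1, hx.2, hy.1, hy.2, hcon.1, hcon.2]
    exact ⟨tsum_eq_single n fun m hm => (hz m hm).1, tsum_eq_single n fun m hm => (hz m hm).2⟩
  · push Not at H
    have hz : ∀ x ∈ Icc a b, ∀ m, gb m x = 0 ∧ dgb m x = 0 := by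
      intro x hx m
      apply gb_zero
      rcases le_or_gt x (-X m) with h | h
      · exact Or.inl h
      · exact Or.inr (H m x hx h)
    refine ⟨0, fun x hx => ?_, Or.inr fun x hx => hz x hx 0⟩
    exact ⟨tsum_eq_single 0 fun m _ => (hz x hx m).1, tsum_eq_single 0 fun m _ => (hz x hx m).2⟩

theorem hasDerivAt_gb (n : ℕ) (x : ℝ) : HasDerivAt (gb n) (dgb n x) x := by
  have := HasDerivAt.fun_sum (u := range (n + 1)) fun i _ => (bd_gb n i).hd x
  exact this

theorem continuous_dgb (n : ℕ) : Continuous (dgb n) := by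
  unfold dgb dph cl
  fun_prop

theorem hasDerivAt_f (x : ℝ) : HasDerivAt f (df x) x := by
  obtain ⟨n, h, -⟩ := loc (a := x - 1) (b := x + 1) (by linarith)
  rw [(h x ⟨by linarith, by linarith⟩).2]
  refine (hasDerivAt_gb n x).congr_of_eventuallyEq ?_
  filter_upwards [Icc_mem_nhds (show x - 1 < x by linarith) (show x < x + 1 by linarith)] with y hy
  exact (h y hy).1

theorem continuous_df : Continuous df := by
  rw [continuous_iff_continuousAt]
  intro x
  obtain ⟨n, h, -⟩ := loc (a := x - 1) (b := x + 1) (by linarith)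
  refine (continuous_dgb n).continuousAt.congr ?_
  filter_upwards [Icc_mem_nhds (show x - 1 < x by linarith) (show x < x + 1 by linarith)] with y hy
  exact (h y hy).2.symm

theorem continuous_f : Continuous f :=
  continuous_iff_continuousAt.2 fun x => (hasDerivAt_f x).continuousAt

theorem geo {B : ℝ} (hB : 2 ≤ B) (N : ℕ) : ∑ i ∈ range N, 1 / B ^ (i + 1) ≤ 2 / B := by
  have hB0 : 0 < B := by linarith
  have e : ∀ i ∈ range N, 1 / B ^ (i + 1) ≤ (-2 / B ^ (i + 1 + 1)) - (-2 / B ^ (i + 1)) := by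
    intro i _
    have h1 : 2 / B ^ (i + 1 + 1) ≤ 1 / B ^ (i + 1) := by
      rw [div_le_div_iff₀ (by positivity) (by positivity), pow_succ B (i + 1)]
      have : 0 < B ^ (i + 1) := by positivity
      nlinarith
    have h2 : -2 / B ^ (i + 1 + 1) = -(2 / B ^ (i + 1 + 1)) := by ring
    have h3 : -2 / B ^ (i + 1) = -(2 * (1 / B ^ (i + 1))) := by ring
    rw [h2, h3]
    linarith
  refine (Finset.sum_le_sum e).trans ?_
  rw [Finset.sum_range_sub (fun i => -2 / B ^ (i + 1))]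
  have : 0 < 2 / B ^ (N + 1) := by positivity
  have h2 : -2 / B ^ (N + 1) = -(2 / B ^ (N + 1)) := by ring
  have h3 : -2 / B ^ (0 + 1) = -(2 / B) := by ring
  rw [h2, h3]
  linarith

theorem geo' {B : ℝ} (hB : 2 ≤ B) (N : ℕ) : ∑ i ∈ range N, B ^ (i + 1) ≤ 2 * B ^ N := by
  have hB0 : 0 < B := by linarith
  have e : ∀ i ∈ range N, B ^ (i + 1) ≤ 2 * B ^ (i + 1) - 2 * B ^ i := by
    intro i _
    have : 0 < B ^ i := by positivity
    rw [pow_succ]
    nlinarith
  refine (Finset.sum_le_sum e).trans ?_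
  rw [Finset.sum_range_sub (fun i => 2 * B ^ i)]
  simp

theorem B_cast (n : ℕ) : ((Bq n : ℕ) : ℝ) = 64 * ((n : ℝ) + 1) := by
  unfold Bq; push_cast; ring

theorem B_ge (n : ℕ) : (64 : ℝ) ≤ Bq n := by
  rw [B_cast]
  have : (0 : ℝ) ≤ n := by positivity
  linarith

theorem gb_nonneg (n : ℕ) (x : ℝ) : 0 ≤ gb n x := Finset.sum_nonneg fun i _ => (bd_gb n i).h0 x

theorem gb_le (n : ℕ) (x : ℝ) : gb n x ≤ 1 / (1024 * ((n : ℝ) + 1)) := by
  have hB := B_ge n
  calc gb n x ≤ ∑ i ∈ range (n + 1), 1 / 32 * (1 / (Bq n : ℝ) ^ (i + 1)) := by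
        refine Finset.sum_le_sum fun i _ => ((bd_gb n i).h0' x).trans (le_of_eq ?_)
        ring
    _ = 1 / 32 * ∑ i ∈ range (n + 1), 1 / (Bq n : ℝ) ^ (i + 1) := by rw [Finset.mul_sum]
    _ ≤ 1 / 32 * (2 / (Bq n : ℝ)) := by
        gcongr
        exact geo (by linarith) _
    _ = _ := by
        rw [B_cast]
        field_simp
        norm_num

theorem dgb_le (n : ℕ) (x : ℝ) : |dgb n x| ≤ ((n : ℝ) + 1) / 64 := by
  calc |dgb n x| ≤ ∑ i ∈ range (n + 1), |dph (Bq n ^ (i + 1)) (x + X n)| := Finset.abs_sum_le_sum_abs _ _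
    _ ≤ ∑ i ∈ range (n + 1), (1 / 64 : ℝ) := Finset.sum_le_sum fun i _ => (bd_gb n i).h1 x
    _ = _ := by simp; ring

theorem dgb_lip (n : ℕ) (x y : ℝ) : |dgb n x - dgb n y| ≤ (Bq n : ℝ) ^ (n + 1) * |x - y| := by
  have hB := B_ge n
  unfold dgb
  rw [← Finset.sum_sub_distrib]
  calc |∑ i ∈ range (n + 1), (dph (Bq n ^ (i + 1)) (x + X n) - dph (Bq n ^ (i + 1)) (y + X n))|
      ≤ ∑ i ∈ range (n + 1), |dph (Bq n ^ (i + 1)) (x + X n) - dph (Bq n ^ (i + 1)) (y + X n)| :=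
        Finset.abs_sum_le_sum_abs _ _
    _ ≤ ∑ i ∈ range (n + 1), 1 / 64 * (Bq n : ℝ) ^ (i + 1) * |x - y| :=
        Finset.sum_le_sum fun i _ => (bd_gb n i).h2 x y
    _ = 1 / 64 * (∑ i ∈ range (n + 1), (Bq n : ℝ) ^ (i + 1)) * |x - y| := by
        rw [Finset.mul_sum, Finset.sum_mul]
    _ ≤ 1 / 64 * (2 * (Bq n : ℝ) ^ (n + 1)) * |x - y| := by
        gcongr
        exact geo' (by linarith) _
    _ ≤ _ := by
        gcongr
        have : (0 : ℝ) ≤ (Bq n : ℝ) ^ (n + 1) := by positivity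
        linarith

theorem f_nonneg (x : ℝ) : 0 ≤ f x := by
  obtain ⟨n, h, -⟩ := loc (a := x) (b := x) (by linarith)
  rw [(h x ⟨le_rfl, le_rfl⟩).1]
  exact gb_nonneg n x

theorem f_le (x : ℝ) : f x ≤ 1 / 1024 := by
  obtain ⟨n, h, -⟩ := loc (a := x) (b := x) (by linarith)
  rw [(h x ⟨le_rfl, le_rfl⟩).1]
  refine (gb_le n x).trans ?_
  rw [div_le_div_iff₀ (by positivity) (by norm_num)]
  have : (0 : ℝ) ≤ n := by positivity
  linarith

theorem df_le {x : ℝ} (hx : x ≤ 0) : |df x| ≤ √(1 - x) := by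
  obtain ⟨n, h, h'⟩ := loc (a := x) (b := x) (by linarith)
  rw [(h x ⟨le_rfl, le_rfl⟩).2]
  rcases h' with ⟨y, hy, h1, h2⟩ | h'
  · obtain rfl : y = x := le_antisymm hy.2 hy.1
    refine (dgb_le n y).trans (Real.le_sqrt_of_sq_le ?_)
    have := two_pi_lt
    unfold X at h1 h2
    have : (0 : ℝ) ≤ n := by positivity
    nlinarith
  · rw [(h' x ⟨le_rfl, le_rfl⟩).2, abs_zero]
    positivity

theorem B_exp (n : ℕ) : (Bq n : ℝ) ^ (n + 1) ≤ exp (5 * ((n : ℝ) + 1) ^ 2) := by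
  have h1 : (Bq n : ℝ) ≤ exp (5 * ((n : ℝ) + 1)) := by
    rw [B_cast]
    have e1 : (64 : ℝ) ≤ exp (5 : ℝ) := by
      have : (2 : ℝ) ^ 6 ≤ (exp 1) ^ 5 := by
        have := exp_one_gt_d9
        calc (2 : ℝ) ^ 6 ≤ (2.7 : ℝ) ^ 5 := by norm_num
          _ ≤ (exp 1) ^ 5 := by gcongr; linarith
      calc (64 : ℝ) = 2 ^ 6 := by norm_num
        _ ≤ exp 1 ^ 5 := this
        _ = exp 5 := by rw [← exp_nat_mul]; norm_num
    have e2 : (n : ℝ) + 1 ≤ exp (5 * (n : ℝ)) := by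
      have := add_one_le_exp (5 * (n : ℝ))
      have : (0 : ℝ) ≤ n := by positivity
      linarith
    calc 64 * ((n : ℝ) + 1) ≤ exp 5 * exp (5 * (n : ℝ)) := by gcongr
      _ = exp (5 * ((n : ℝ) + 1)) := by rw [← exp_add]; ring_nf
  calc (Bq n : ℝ) ^ (n + 1) ≤ exp (5 * ((n : ℝ) + 1)) ^ (n + 1) := by gcongr
    _ = exp (5 * ((n : ℝ) + 1) ^ 2) := by
      rw [← exp_nat_mul]
      congr 1
      push_cast
      ring

theorem df_lip {x0 x y : ℝ} (hx : x ∈ Icc (x0 - 1) (x0 + 1)) (hy : y ∈ Icc (x0 - 1) (x0 + 1)) :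
    |df x - df y| ≤ exp (-x0) * |x - y| := by
  obtain ⟨n, h, h'⟩ := loc (a := x0 - 1) (b := x0 + 1) (by linarith)
  rw [(h x hx).2, (h y hy).2]
  rcases h' with ⟨z, hz, h1, h2⟩ | h'
  · refine (dgb_lip n x y).trans ?_
    gcongr
    refine (B_exp n).trans (exp_le_exp.2 ?_)
    have := two_pi_lt
    unfold X at h1 h2
    have : (0 : ℝ) ≤ n := by positivity
    nlinarith [hz.1, hz.2]
  · rw [(h' x hx).2, (h' y hy).2, sub_self, abs_zero]
    positivity

theorem chord {a b x : ℝ} (hab : a < b) (hax : a ≤ x) (hxb : x ≤ b) :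
    |f x - ((b - x) * f a + (x - a) * f b) / (b - a)| ≤ b - a := by
  have hl : 0 < b - a := by linarith
  rcases le_or_gt b (a + 16) with hs | hs
  · obtain ⟨n, h, -⟩ := loc hs
    rw [(h x ⟨hax, hxb⟩).1, (h a ⟨le_rfl, hab.le⟩).1, (h b ⟨hab.le, le_rfl⟩).1]
    have hB := B_ge n
    set T : ℕ → ℝ := fun i => |ph (Bq n ^ (i + 1)) (x + X n) -
      ((b - x) * ph (Bq n ^ (i + 1)) (a + X n) + (x - a) * ph (Bq n ^ (i + 1)) (b + X n)) / (b - a)| /
        (b - a) with hT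
    have e1 : |gb n x - ((b - x) * gb n a + (x - a) * gb n b) / (b - a)| ≤
        (b - a) * ∑ i ∈ range (n + 1), T i := by
      have e2 : gb n x - ((b - x) * gb n a + (x - a) * gb n b) / (b - a) =
          ∑ i ∈ range (n + 1), (ph (Bq n ^ (i + 1)) (x + X n) -
            ((b - x) * ph (Bq n ^ (i + 1)) (a + X n) + (x - a) * ph (Bq n ^ (i + 1)) (b + X n)) / (b - a)) := by
        rw [Finset.sum_sub_distrib, ← Finset.sum_div, Finset.sum_add_distrib, ← Finset.mul_sum,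
          ← Finset.mul_sum]
        rfl
      rw [e2, Finset.mul_sum]
      refine (Finset.abs_sum_le_sum_abs _ _).trans (Finset.sum_le_sum fun i _ => le_of_eq ?_)
      rw [hT]
      field_simp
    have hd : ∀ i, _ := fun i => (bd_gb n i).dev (by positivity) (by norm_num) hab hax hxb
    have e3 : ∑ i ∈ range (n + 1), T i ≤ 8 * (1 / 32) := by
      refine tele (B := Bq n) (a := b - a) (by linarith) hl (by norm_num) (n + 1) T ?_ ?_ ?_
      · intro i
        rw [hT]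
        simp only
        rw [div_le_iff₀ hl]
        have := (hd i).1
        linarith
      · intro i
        have := (hd i).2.1
        rw [hT]
        simp only
        rw [div_mul_eq_mul_div, div_le_iff₀ hl]
        nlinarith
      · intro i
        have := (hd i).2.2
        rw [hT]
        simp only
        rw [div_le_iff₀ hl]
        refine this.trans ?_
        have h5 : (0 : ℝ) ≤ (Bq n : ℝ) ^ (i + 1) * (b - a) ^ 2 := by positivity
        nlinarith
    nlinarith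
  · have h1 : 0 ≤ ((b - x) * f a + (x - a) * f b) / (b - a) := by
      apply div_nonneg _ hl.le
      exact add_nonneg (mul_nonneg (by linarith) (f_nonneg a)) (mul_nonneg (by linarith) (f_nonneg b))
    have h2 : ((b - x) * f a + (x - a) * f b) / (b - a) ≤ 1 / 1024 := by
      rw [div_le_iff₀ hl]
      have := f_le a
      have := f_le b
      nlinarith
    have := f_le x
    have := f_nonneg x
    rw [abs_le]
    constructor <;> linarith

end Pool.Agent.KS6_41.QC
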