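import Pool.Agent.KS6_41.QC.Wt

set_option autoImplicit false

namespace Pool.Agent.KS6_41.QC

open Real Set MeasureTheory

abbrev E2 := EuclideanSpace ℝ (Fin 2)

noncomputable def ptE : ℝ × ℝ ≃ᵐ E2 :=
  (MeasurableEquiv.finTwoArrow (α := ℝ)).symm.trans (MeasurableEquiv.toLp 2 (Fin 2 → ℝ))

theorem ptE_mp : MeasurePreserving ptE :=
  ((volume_preserving_finTwoArrow ℝ).symm).trans
    (EuclideanSpace.volume_preserving_symm_measurableEquiv_toLp (Fin 2)).symm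

@[simp] theorem ptE_zero (P : ℝ × ℝ) : (ptE P) 0 = P.1 := rfl

@[simp] theorem ptE_one (P : ℝ × ℝ) : (ptE P) 1 = P.2 := rfl

theorem ptE_eq (P : ℝ × ℝ) : ptE P = P.1 • (EuclideanSpace.single 0 1 : E2) +
    P.2 • (EuclideanSpace.single 1 1 : E2) := by
  ext i
  fin_cases i
  · simp
  · simp

theorem dist_ptE (P Q : ℝ × ℝ) : dist (ptE P) (ptE Q) = √((P.1 - Q.1) ^ 2 + (P.2 - Q.2) ^ 2) := by
  rw [EuclideanSpace.dist_eq]
  simp [Fin.sum_univ_two, Real.dist_eq, sq_abs]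

theorem dist_ptE_lt {P Q : ℝ × ℝ} {r : ℝ} (hr : 0 < r) :
    dist (ptE P) (ptE Q) < r ↔ (P.1 - Q.1) ^ 2 + (P.2 - Q.2) ^ 2 < r ^ 2 := by
  rw [dist_ptE, Real.sqrt_lt' hr]

theorem norm_smul_le (x y : ℝ) : ‖x • (EuclideanSpace.single 0 1 : E2) +
    y • (EuclideanSpace.single 1 1 : E2)‖ ≤ |x| + |y| := by
  refine (norm_add_le _ _).trans ?_
  rw [norm_smul, norm_smul]
  simp

/-- The domain in coordinates. -/
def dom : Set (ℝ × ℝ) := {P | P.1 < 0 ∧ f P.1 < P.2 ∧ P.2 < f P.1 + wt P.1}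

/-- The domain. -/
def Om : Set E2 := {p | p 0 < 0 ∧ f (p 0) < p 1 ∧ p 1 < f (p 0) + wt (p 0)}

theorem mem_Om {P : ℝ × ℝ} : ptE P ∈ Om ↔ P ∈ dom := Iff.rfl

noncomputable def tau (P : ℝ × ℝ) : ℝ := (P.2 - f P.1) / wt P.1

noncomputable def xs (P Q : ℝ × ℝ) (s : ℝ) : ℝ := (1 - s) * P.1 + s * Q.1

noncomputable def ts (P Q : ℝ × ℝ) (s : ℝ) : ℝ := (1 - s) * tau P + s * tau Q

noncomputable def ys (P Q : ℝ × ℝ) (s : ℝ) : ℝ := f (xs P Q s) + ts P Q s * wt (xs P Q s)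

noncomputable def cr (P Q : ℝ × ℝ) (s : ℝ) : ℝ × ℝ := (xs P Q s, ys P Q s)

noncomputable def dys (P Q : ℝ × ℝ) (s : ℝ) : ℝ :=
  df (xs P Q s) * (Q.1 - P.1) + ((tau Q - tau P) * wt (xs P Q s) +
    ts P Q s * (dwt (xs P Q s) * (Q.1 - P.1)))

theorem cr_zero (P Q : ℝ × ℝ) : cr P Q 0 = P := by
  have := (wt_pos P.1).ne'
  ext
  · simp [cr, xs]
  · simp only [cr, ys, xs, ts, tau]
    ring_nf
    field_simp
    ring

theorem cr_one (P Q : ℝ × ℝ) : cr P Q 1 = Q := by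
  have := (wt_pos Q.1).ne'
  ext
  · simp [cr, xs]
  · simp only [cr, ys, xs, ts, tau]
    ring_nf
    field_simp
    ring

theorem tau_mem {P : ℝ × ℝ} (hP : P ∈ dom) : 0 < tau P ∧ tau P < 1 := by
  have := wt_pos P.1
  obtain ⟨_, h2, h3⟩ := hP
  unfold tau
  constructor
  · apply div_pos _ this
    linarith
  · rw [div_lt_one this]
    linarith

theorem ts_mem {P Q : ℝ × ℝ} (hP : P ∈ dom) (hQ : Q ∈ dom) {s : ℝ} (hs : s ∈ Icc (0 : ℝ) 1) :
    0 < ts P Q s ∧ ts P Q s < 1 := by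
  have h1 := tau_mem hP
  have h2 := tau_mem hQ
  obtain ⟨hs0, hs1⟩ := hs
  unfold ts
  constructor
  · rcases hs0.eq_or_lt with rfl | h
    · simpa using h1.1
    · have := mul_pos h h2.1
      have := mul_nonneg (by linarith : (0 : ℝ) ≤ 1 - s) h1.1.le
      linarith
  · rcases hs0.eq_or_lt with rfl | h
    · simpa using h1.2
    · have := mul_lt_mul_of_pos_left h2.2 h
      have := mul_le_mul_of_nonneg_left h1.2.le (by linarith : (0 : ℝ) ≤ 1 - s)
      linarith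

theorem xs_mem {P Q : ℝ × ℝ} {a b : ℝ} (hP : P.1 ∈ Icc a b) (hQ : Q.1 ∈ Icc a b) {s : ℝ}
    (hs : s ∈ Icc (0 : ℝ) 1) : xs P Q s ∈ Icc a b := by
  obtain ⟨hs0, hs1⟩ := hs
  unfold xs
  constructor
  · nlinarith [hP.1, hQ.1]
  · nlinarith [hP.2, hQ.2]

theorem xs_neg {P Q : ℝ × ℝ} (hP : P.1 < 0) (hQ : Q.1 < 0) {s : ℝ}
    (hs : s ∈ Icc (0 : ℝ) 1) : xs P Q s < 0 := by
  have := (xs_mem (P := P) (Q := Q) (a := min P.1 Q.1) (b := max P.1 Q.1)
    ⟨min_le_left _ _, le_max_left _ _⟩ ⟨min_le_right _ _, le_max_right _ _⟩ hs).2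
  exact this.trans_lt (max_lt hP hQ)

theorem cr_mem {P Q : ℝ × ℝ} (hP : P ∈ dom) (hQ : Q ∈ dom) {s : ℝ} (hs : s ∈ Icc (0 : ℝ) 1) :
    cr P Q s ∈ dom := by
  have h := ts_mem hP hQ hs
  have hw := wt_pos (xs P Q s)
  refine ⟨xs_neg hP.1 hQ.1 hs, ?_, ?_⟩
  · simp only [cr, ys]
    nlinarith [mul_pos h.1 hw]
  · simp only [cr, ys]
    nlinarith [mul_lt_mul_of_pos_right h.2 hw]

theorem hasDerivAt_xs (P Q : ℝ × ℝ) (s : ℝ) : HasDerivAt (xs P Q) (Q.1 - P.1) s := by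
  have h1 : HasDerivAt (fun s : ℝ => (1 - s) * P.1 + s * Q.1) ((-1) * P.1 + 1 * Q.1) s :=
    (((hasDerivAt_id s).const_sub 1).mul_const P.1).add ((hasDerivAt_id s).mul_const Q.1)
  refine h1.congr_deriv ?_
  ring

theorem hasDerivAt_ts (P Q : ℝ × ℝ) (s : ℝ) : HasDerivAt (ts P Q) (tau Q - tau P) s := by
  have h1 : HasDerivAt (fun s : ℝ => (1 - s) * tau P + s * tau Q) ((-1) * tau P + 1 * tau Q) s :=
    (((hasDerivAt_id s).const_sub 1).mul_const (tau P)).add ((hasDerivAt_id s).mul_const (tau Q))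
  refine h1.congr_deriv ?_
  ring

theorem hasDerivAt_ys (P Q : ℝ × ℝ) (s : ℝ) : HasDerivAt (ys P Q) (dys P Q s) s := by
  have h1 := (hasDerivAt_f (xs P Q s)).comp s (hasDerivAt_xs P Q s)
  have h2 := (hasDerivAt_wt (xs P Q s)).comp s (hasDerivAt_xs P Q s)
  exact h1.add ((hasDerivAt_ts P Q s).mul h2)

theorem continuous_xs (P Q : ℝ × ℝ) : Continuous (xs P Q) := by unfold xs; fun_prop

theorem continuous_ts (P Q : ℝ × ℝ) : Continuous (ts P Q) := by unfold ts; fun_prop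

theorem continuous_dys (P Q : ℝ × ℝ) : Continuous (dys P Q) := by
  have h1 := continuous_df.comp (continuous_xs P Q)
  have h2 := continuous_wt.comp (continuous_xs P Q)
  have h3 := continuous_dwt.comp (continuous_xs P Q)
  exact (h1.mul continuous_const).add ((continuous_const.mul h2).add
    ((continuous_ts P Q).mul (h3.mul continuous_const)))

theorem hasDerivAt_cr (P Q : ℝ × ℝ) (s : ℝ) : HasDerivAt (fun s => ptE (cr P Q s))
    ((Q.1 - P.1) • (EuclideanSpace.single 0 1 : E2) + dys P Q s • (EuclideanSpace.single 1 1 : E2)) s := by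
  have h := ((hasDerivAt_xs P Q s).smul_const (EuclideanSpace.single 0 1 : E2)).add
    ((hasDerivAt_ys P Q s).smul_const (EuclideanSpace.single 1 1 : E2))
  refine h.congr_of_eventuallyEq (Filter.Eventually.of_forall fun t => ?_)
  simp only [ptE_eq, cr]
  rfl

theorem norm_deriv_cr (P Q : ℝ × ℝ) (s : ℝ) : ‖deriv (fun s => ptE (cr P Q s)) s‖ ≤
    |Q.1 - P.1| + |dys P Q s| := by
  rw [(hasDerivAt_cr P Q s).deriv]
  exact norm_smul_le _ _

theorem lip_cr (P Q : ℝ × ℝ) : ∃ K : NNReal, LipschitzOnWith K (fun s => ptE (cr P Q s)) (Icc 0 1) := by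
  have hc : Continuous fun s => |Q.1 - P.1| + |dys P Q s| := by
    have := continuous_dys P Q
    fun_prop
  obtain ⟨K, hK⟩ := isCompact_Icc.exists_bound_of_continuousOn (s := Icc (0 : ℝ) 1) hc.continuousOn
  refine ⟨K.toNNReal, (convex_Icc (0 : ℝ) 1).lipschitzOnWith_of_nnnorm_hasDerivWithin_le
    (fun s _ => (hasDerivAt_cr P Q s).hasDerivWithinAt) fun s hs => ?_⟩
  rw [← NNReal.coe_le_coe, coe_nnnorm]
  refine (norm_smul_le _ _).trans ?_
  refine le_trans ?_ (Real.le_coe_toNNReal K)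
  exact (le_abs_self _).trans (hK s hs)

theorem continuous_ptE : Continuous ptE := by
  have : (ptE : ℝ × ℝ → E2) = fun P => P.1 • (EuclideanSpace.single 0 1 : E2) +
    P.2 • (EuclideanSpace.single 1 1 : E2) := funext ptE_eq
  rw [this]
  fun_prop

theorem isOpen_dom : IsOpen dom := by
  have h1 := continuous_f
  have h2 := continuous_wt
  have a1 : IsOpen {P : ℝ × ℝ | P.1 < 0} := isOpen_lt (by fun_prop) (by fun_prop)
  have a2 : IsOpen {P : ℝ × ℝ | f P.1 < P.2} := isOpen_lt (by fun_prop) (by fun_prop)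
  have a3 : IsOpen {P : ℝ × ℝ | P.2 < f P.1 + wt P.1} := isOpen_lt (by fun_prop) (by fun_prop)
  exact a1.inter (a2.inter a3)

theorem isOpen_Om : IsOpen Om := by
  have h1 := continuous_f
  have h2 := continuous_wt
  have a1 : IsOpen {P : E2 | P 0 < 0} := isOpen_lt (by fun_prop) (by fun_prop)
  have a2 : IsOpen {P : E2 | f (P 0) < P 1} := isOpen_lt (by fun_prop) (by fun_prop)
  have a3 : IsOpen {P : E2 | P 1 < f (P 0) + wt (P 0)} := isOpen_lt (by fun_prop) (by fun_prop)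
  exact a1.inter (a2.inter a3)

theorem ptE_surj (p : E2) : ∃ P, ptE P = p := ⟨ptE.symm p, ptE.apply_symm_apply p⟩

theorem Om_eq : Om = ptE '' dom := by
  ext p
  constructor
  · intro hp
    obtain ⟨P, rfl⟩ := ptE_surj p
    exact ⟨P, hp, rfl⟩
  · rintro ⟨P, hP, rfl⟩
    exact hP

theorem isConnected_Om : IsConnected Om := by
  rw [Om_eq]
  have h1 := continuous_f
  have h2 := continuous_wt
  have e : dom = (fun P : ℝ × ℝ => (P.1, f P.1 + P.2 * wt P.1)) '' (Iio 0 ×ˢ Ioo 0 1) := by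
    ext P
    constructor
    · intro hP
      have := (wt_pos P.1).ne'
      refine ⟨(P.1, tau P), ⟨hP.1, tau_mem hP⟩, ?_⟩
      ext
      · rfl
      · simp only [tau]
        field_simp
        ring
    · rintro ⟨R, ⟨h1, h2⟩, rfl⟩
      have hw := wt_pos R.1
      refine ⟨h1, ?_, ?_⟩
      · simp only
        nlinarith [mul_pos h2.1 hw]
      · simp only
        nlinarith [mul_lt_mul_of_pos_right h2.2 hw]
  rw [e]
  refine IsConnected.image (IsConnected.image ?_ _ (by fun_prop)) _ continuous_ptE.continuousOn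
  exact isConnected_Iio.prod (isConnected_Ioo (by norm_num))

end Pool.Agent.KS6_41.QC
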