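import Pool.Agent.KS6_41.QC.Vol

set_option autoImplicit false

namespace Pool.Agent.KS6_41.QC

open Real Set MeasureTheory
open scoped ENNReal

theorem measurable_len : Measurable fun z : (ℝ × ℝ) × (ℝ × ℝ) => len z.1 z.2 := by
  unfold len
  have h1 := continuous_f.measurable
  have h2 := continuous_wt.measurable
  have h3 := measurable_tau
  have h4 := continuous_df.measurable
  have h5 := continuous_dwt.measurable
  have e : ∀ (z : (ℝ × ℝ) × (ℝ × ℝ)) (s : ℝ), ‖deriv (fun s => ptE (cr z.1 z.2 s)) s‖ₑ =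
      ‖(z.2.1 - z.1.1) • (EuclideanSpace.single 0 1 : E2) +
        dys z.1 z.2 s • (EuclideanSpace.single 1 1 : E2)‖ₑ := by
    intro z s
    rw [(hasDerivAt_cr z.1 z.2 s).deriv]
  simp only [e]
  refine Measurable.lintegral_prod_right' (f := fun w : ((ℝ × ℝ) × (ℝ × ℝ)) × ℝ =>
    ‖(w.1.2.1 - w.1.1.1) • (EuclideanSpace.single 0 1 : E2) +
        dys w.1.1 w.1.2 w.2 • (EuclideanSpace.single 1 1 : E2)‖ₑ) ?_
  apply Measurable.enorm
  have h6 : Measurable fun w : ((ℝ × ℝ) × (ℝ × ℝ)) × ℝ => dys w.1.1 w.1.2 w.2 := by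
    unfold dys ts xs
    fun_prop
  exact ((by fun_prop : Measurable fun w : ((ℝ × ℝ) × (ℝ × ℝ)) × ℝ => w.1.2.1 - w.1.1.1).smul_const _).add
    (h6.smul_const _)

theorem vol_Bs_lt_top {p : ℝ × ℝ} {r : ℝ} (hr : 0 < r) : volume (Bs p r) < ∞ := by
  rw [Bs_eq p hr, ptE_mp.measure_preimage_emb ptE.measurableEmbedding]
  exact (measure_mono inter_subset_left).trans_lt measure_ball_lt_top

theorem vol_Bs_pos {p : ℝ × ℝ} {r : ℝ} (hp : p ∈ dom) (hr : 0 < r) : 0 < volume (Bs p r) := by
  refine (isOpen_Bs p r).measure_pos _ ⟨p, hp, ?_⟩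
  simp
  positivity

/-- the part of the integral of the distance to `z'` along the domain -/
theorem lin_est {p : ℝ × ℝ} {r : ℝ} (hp : p ∈ dom) (hr : 0 < r) (hbig : exp p.1 / 2 ≤ r) :
    ∃ z' : ℝ, ∫⁻ P in Bs p r, ENNReal.ofReal |Pf P.1 - Pf z'| ≤ ENNReal.ofReal (6 * r) * volume (Bs p r) := by
  have hp0 : p.1 < 0 := hp.1
  obtain ⟨z, hz0, hz1, hz2, hz3⟩ := exists_z (x0 := p.1) (r1 := r / (1 + 1 / (8 * √(1 - p.1)))) hp0
  have hL : 1 ≤ √(1 - p.1) := by rw [Real.one_le_sqrt]; linarith
  have hLsq : √(1 - p.1) ^ 2 = 1 - p.1 := Real.sq_sqrt (by linarith)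
  have hzx : z - p.1 ≤ r := by
    have h0 : 0 < r / (1 + 1 / (8 * √(1 - p.1))) := by positivity
    have h1 : r / (1 + 1 / (8 * √(1 - p.1))) ≤ r := by
      apply div_le_self hr.le
      have : 0 < 1 / (8 * √(1 - p.1)) := by positivity
      linarith
    have h2 : (z - p.1) ^ 2 ≤ (r / (1 + 1 / (8 * √(1 - p.1)))) ^ 2 := by
      nlinarith [sq_nonneg (f z - f p.1)]
    have := abs_le_of_sq_le_sq h2 h0.le
    linarith [le_abs_self (z - p.1)]
  set d := min r 1 / (64 * (1 - p.1)) with hd
  have hm0 : 0 < min r 1 := lt_min hr one_pos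
  have hd0 : 0 < d := div_pos hm0 (by linarith)
  have hd1 : d ≤ 1 := by
    rw [hd, div_le_one (by linarith)]
    have := min_le_right r 1
    linarith
  refine ⟨z - d, ?_⟩
  set z' := z - d with hz'
  have hGm : Measurable fun x : ℝ => ENNReal.ofReal |Pf x - Pf z'| :=
    (continuous_Pf.measurable.sub_const _).abs.ennreal_ofReal
  have hA : MeasurableSet {P : ℝ × ℝ | P.1 ≤ z'} := measurable_fst measurableSet_Iic
  rw [← lintegral_inter_add_sdiff (fun P : ℝ × ℝ => ENNReal.ofReal |Pf P.1 - Pf z'|) (Bs p r) hA]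
  have part1 : ∫⁻ P in Bs p r ∩ {P : ℝ × ℝ | P.1 ≤ z'}, ENNReal.ofReal |Pf P.1 - Pf z'| ≤
      ENNReal.ofReal r * volume (Bs p r) := by
    calc ∫⁻ P in Bs p r ∩ {P : ℝ × ℝ | P.1 ≤ z'}, ENNReal.ofReal |Pf P.1 - Pf z'|
        ≤ ∫⁻ P in {P : ℝ × ℝ | P ∈ dom ∧ P.1 ∈ Iic z'}, ENNReal.ofReal |Pf P.1 - Pf z'| :=
          lintegral_mono_set fun P hP => ⟨hP.1.1, hP.2⟩
      _ ≤ ∫⁻ x in Iic z', ENNReal.ofReal |Pf x - Pf z'| * ENNReal.ofReal (wt x) :=
          lint_upper (fun x => ENNReal.ofReal |Pf x - Pf z'|) hGm _ measurableSet_Iic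
      _ ≤ ∫⁻ x in Iic z', ENNReal.ofReal ((2 + √(1 - x)) * (z' - x) * wt x) := by
          refine setLIntegral_mono' measurableSet_Iic fun x hx => ?_
          rw [← ENNReal.ofReal_mul (abs_nonneg _)]
          apply ENNReal.ofReal_le_ofReal
          have h1 := Pf_le hx (show z' ≤ 0 by linarith)
          rw [abs_sub_comm]
          exact mul_le_mul_of_nonneg_right h1 (wt_pos x).le
      _ ≤ ENNReal.ofReal (6 * √(1 - z') * wt z' / (1000 * exp (-2 * z')) ^ 2) := tail_int (by linarith)
      _ ≤ ENNReal.ofReal (r * (1 / (64 * (1 - p.1)) * min r 1 * wt z')) :=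
          ENNReal.ofReal_le_ofReal (w3 hp0.le (by linarith) (by linarith) hbig)
      _ = ENNReal.ofReal r * (ENNReal.ofReal (wt z') * ENNReal.ofReal (z - z')) := by
          rw [ENNReal.ofReal_mul hr.le, ← ENNReal.ofReal_mul (wt_pos z').le]
          congr 2
          rw [hz', hd]
          ring
      _ ≤ ENNReal.ofReal r * volume {P : ℝ × ℝ | P ∈ dom ∧ P.1 ∈ Ioo z' z} := by
          gcongr
          exact vol_lower hz1
      _ ≤ ENNReal.ofReal r * volume (Bs p r) := by
          gcongr
          intro P hP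
          exact inner hp hbig hz0 hz1 hz2 hP.1 (by rw [← hd]; exact hP.2.1.le) hP.2.2.le
  have part2 : ∫⁻ P in Bs p r \ {P : ℝ × ℝ | P.1 ≤ z'}, ENNReal.ofReal |Pf P.1 - Pf z'| ≤
      ENNReal.ofReal (5 * r) * volume (Bs p r) := by
    calc ∫⁻ P in Bs p r \ {P : ℝ × ℝ | P.1 ≤ z'}, ENNReal.ofReal |Pf P.1 - Pf z'|
        ≤ ∫⁻ _ in Bs p r \ {P : ℝ × ℝ | P.1 ≤ z'}, ENNReal.ofReal (5 * r) := by
          refine setLIntegral_mono' ((isOpen_Bs p r).measurableSet.diff hA) fun P hP => ?_
          apply ENNReal.ofReal_le_ofReal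
          have hPz : z' < P.1 := by
            have := hP.2
            simpa using this
          have h1 := Pf_le hPz.le hP.1.1.1.le
          refine h1.trans ?_
          set L := √(1 - p.1) with hLd
          have hL0 : 0 < L := by linarith
          have h2 : P.1 - z ≤ r / L := by
            rcases le_or_gt P.1 z with h | h
            · have : 0 < r / L := by positivity
              linarith
            · exact top_bound hp hbig hz0 hz2 hz3 hP.1 h
          have h3 : √(1 - z') ≤ 2 * L := by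
            rw [Real.sqrt_le_left (by positivity), mul_pow, hLsq]
            linarith
          have h4 : d ≤ r / (64 * L) := by
            rw [hd, ← hLsq]
            apply div_le_div₀ hr.le (min_le_left _ _) (by positivity)
            nlinarith
          have h5 : P.1 - z' ≤ r / L + r / (64 * L) := by
            rw [hz']; linarith
          calc (2 + √(1 - z')) * (P.1 - z') ≤ (4 * L) * (r / L + r / (64 * L)) := by
                gcongr
                linarith
            _ = 4 * r + r / 16 := by field_simp; ring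
            _ ≤ 5 * r := by linarith
      _ = ENNReal.ofReal (5 * r) * volume (Bs p r \ {P : ℝ × ℝ | P.1 ≤ z'}) := by
          rw [setLIntegral_const]
      _ ≤ _ := by
          gcongr
          exact sdiff_subset
  calc _ ≤ ENNReal.ofReal r * volume (Bs p r) + ENNReal.ofReal (5 * r) * volume (Bs p r) :=
        add_le_add part1 part2
    _ = ENNReal.ofReal (6 * r) * volume (Bs p r) := by
        rw [← add_mul, ← ENNReal.ofReal_add hr.le (by positivity)]
        congr 2
        ring

theorem ball_est {p : ℝ × ℝ} {r : ℝ} (hp : p ∈ dom) (hr : 0 < r) :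
    ∫⁻ z, len z.1 z.2 ∂((volume.restrict (Bs p r)).prod (volume.restrict (Bs p r))) ≤
      ENNReal.ofReal (13 * r) * (volume.restrict (Bs p r)) univ * (volume.restrict (Bs p r)) univ := by
  have hBm := (isOpen_Bs p r).measurableSet
  have hp0 : p.1 < 0 := hp.1
  rw [Measure.restrict_apply_univ]
  rcases le_or_gt r (exp p.1 / 2) with hs | hs
  · rw [Measure.prod_restrict]
    calc ∫⁻ z in Bs p r ×ˢ Bs p r, len z.1 z.2 ∂((volume : Measure (ℝ × ℝ)).prod volume)
        ≤ ∫⁻ _ in Bs p r ×ˢ Bs p r, ENNReal.ofReal (8 * r) ∂((volume : Measure (ℝ × ℝ)).prod volume) :=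
          setLIntegral_mono' (hBm.prod hBm) fun z hz => len_small hr hs hp0.le hz.1 hz.2
      _ = ENNReal.ofReal (8 * r) * volume (Bs p r) * volume (Bs p r) := by
          rw [setLIntegral_const, Measure.prod_prod, mul_assoc]
      _ ≤ _ := by
          gcongr
          norm_num
  · obtain ⟨z', hz'⟩ := lin_est hp hr hs.le
    set μ := volume.restrict (Bs p r) with hμ
    have hGm : Measurable fun P : ℝ × ℝ => ENNReal.ofReal |Pf P.1 - Pf z'| :=
      ((continuous_Pf.measurable.sub_const _).abs.ennreal_ofReal).comp measurable_fst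
    have huniv : μ univ = volume (Bs p r) := Measure.restrict_apply_univ _
    have hle : ∫⁻ z, len z.1 z.2 ∂(μ.prod μ) ≤ ∫⁻ z, (ENNReal.ofReal |Pf z.1.1 - Pf z'| * 1 +
        1 * ENNReal.ofReal |Pf z.2.1 - Pf z'| + ENNReal.ofReal r) ∂(μ.prod μ) := by
      rw [hμ, Measure.prod_restrict]
      refine setLIntegral_mono' (hBm.prod hBm) fun z hz => ?_
      have hb1 := Bs_abs hr hz.1
      have hb2 := Bs_abs hr hz.2
      rw [abs_lt, abs_lt] at hb1 hb2
      have hL : 1 ≤ √(1 - p.1) := by rw [Real.one_le_sqrt]; linarith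
      have w1' : wt z.1.1 ≤ r := by
        have := w1 (x0 := p.1) hz.1.1.1.le (by linarith [hb1.1.2]) hs.le
        have := wt_pos z.1.1
        nlinarith
      have w2' : wt z.2.1 ≤ r := by
        have := w1 (x0 := p.1) hz.2.1.1.le (by linarith [hb2.1.2]) hs.le
        have := wt_pos z.2.1
        nlinarith
      refine (len_big hz.1.1 hz.2.1 w1' w2').trans ?_
      rw [mul_one, one_mul, ← ENNReal.ofReal_add (abs_nonneg _) (abs_nonneg _),
        ← ENNReal.ofReal_add (by positivity) hr.le]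
      apply ENNReal.ofReal_le_ofReal
      have := abs_sub_le (Pf z.2.1) (Pf z') (Pf z.1.1)
      rw [abs_sub_comm (Pf z') (Pf z.1.1)] at this
      linarith
    have hGm1 : Measurable fun z : (ℝ × ℝ) × (ℝ × ℝ) => ENNReal.ofReal |Pf z.1.1 - Pf z'| * 1 :=
      (hGm.comp measurable_fst).mul_const 1
    refine hle.trans ?_
    rw [lintegral_add_right _ measurable_const, lintegral_add_left hGm1,
      lintegral_const, ← univ_prod_univ, Measure.prod_prod,
      lintegral_prod_mul (f := fun P : ℝ × ℝ => ENNReal.ofReal |Pf P.1 - Pf z'|) (g := fun _ => 1)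
        hGm.aemeasurable aemeasurable_const,
      lintegral_prod_mul (f := fun _ => 1) (g := fun P : ℝ × ℝ => ENNReal.ofReal |Pf P.1 - Pf z'|)
        aemeasurable_const hGm.aemeasurable]
    simp only [lintegral_const, one_mul]
    rw [huniv]
    calc (∫⁻ P, ENNReal.ofReal |Pf P.1 - Pf z'| ∂μ) * volume (Bs p r) +
          volume (Bs p r) * (∫⁻ P, ENNReal.ofReal |Pf P.1 - Pf z'| ∂μ) +
          ENNReal.ofReal r * (volume (Bs p r) * volume (Bs p r))
        ≤ (ENNReal.ofReal (6 * r) * volume (Bs p r)) * volume (Bs p r) +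
          volume (Bs p r) * (ENNReal.ofReal (6 * r) * volume (Bs p r)) +
          ENNReal.ofReal r * (volume (Bs p r) * volume (Bs p r)) := by
            gcongr
      _ = (ENNReal.ofReal (6 * r) + ENNReal.ofReal (6 * r) + ENNReal.ofReal r) *
          volume (Bs p r) * volume (Bs p r) := by ring
      _ = _ := by
          rw [← ENNReal.ofReal_add (by positivity) (by positivity),
            ← ENNReal.ofReal_add (by positivity) hr.le]
          congr 3
          ring

end Pool.Agent.KS6_41.QC
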