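import Pool.Agent.KS6_41.QC.PI
import Pool.Agent.KS6_41.QC.Mom

set_option autoImplicit false

namespace Pool.Agent.KS6_41.QC

open Real Set MeasureTheory Metric
open scoped ENNReal NNReal

theorem f_block {n : ℕ} {x : ℝ} (hx : x ∈ Icc (-X n) (-X n + 2 * π)) : f x = gb n x ∧ df x = dgb n x := by
  have hz : ∀ m ≠ n, gb m x = 0 ∧ dgb m x = 0 := by
    intro m hm
    apply gb_zero
    have := two_pi_lt
    rcases lt_or_gt_of_ne hm with h | h
    · left
      have := X_sep h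
      linarith [hx.1, hx.2]
    · right
      have := X_sep h
      linarith [hx.1, hx.2]
  exact ⟨tsum_eq_single n fun m hm => (hz m hm).1, tsum_eq_single n fun m hm => (hz m hm).2⟩

theorem f_left (n : ℕ) : f (-X n) = 0 := by
  rw [(f_block ⟨le_rfl, by have := two_pi_gt; linarith⟩).1]
  exact (gb_zero (Or.inl le_rfl)).1

theorem f_right (n : ℕ) : f (-X n + 2 * π) = 0 := by
  rw [(f_block ⟨by have := two_pi_gt; linarith, le_rfl⟩).1]
  exact (gb_zero (Or.inr le_rfl)).1

theorem var_block (n : ℕ) : √((n : ℝ) + 1) / 64 ≤ ∫ x in (-X n)..(-X n + 2 * π), |df x| := by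
  have hB : 5 ≤ Bq n := by unfold Bq; omega
  have h1 := l1_lower hB (n + 1) (by omega)
  have h2 : ∫ x in (-X n)..(-X n + 2 * π), |df x| =
      ∫ c in (0 : ℝ)..2 * π, 1 / 64 * |Ts (Bq n) (n + 1) (Bq n * c)| := by
    have e1 : ∫ x in (-X n)..(-X n + 2 * π), |df x| = ∫ c in (0 : ℝ)..2 * π, |df (c + -X n)| := by
      rw [intervalIntegral.integral_comp_add_right (fun x => |df x|)]
      congr 1 <;> ring
    rw [e1]
    apply intervalIntegral.integral_congr
    intro c hc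
    rw [uIcc_of_le (by positivity)] at hc
    simp only
    rw [(f_block (n := n) (x := c + -X n) ⟨by linarith [hc.1], by linarith [hc.2]⟩).2]
    have e2 : dgb n (c + -X n) = 1 / 64 * Ts (Bq n) (n + 1) (Bq n * c) := by
      unfold dgb Ts dph
      rw [Finset.mul_sum]
      refine Finset.sum_congr rfl fun i _ => ?_
      have e3 : cl (c + -X n + X n) = c := by
        unfold cl
        rw [neg_add_cancel_right, min_eq_left hc.2, max_eq_right hc.1]
      rw [e3]
      congr 2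
      push_cast
      ring
    rw [e2, abs_mul, abs_of_pos (by norm_num : (0 : ℝ) < 1 / 64)]
  rw [h2, intervalIntegral.integral_const_mul,
    int_scale (G := fun c => |Ts (Bq n) (n + 1) c|) (continuous_Ts _ _).abs
      (fun c => by simp only [periodic_Ts (Bq n) (n + 1) c]) (by omega)]
  push_cast at h1
  linarith

/-- the integral of `|f'|` over a short interval -/
theorem cell {n : ℕ} {p q : ℝ} (hpq : p < q) (hp : -X n ≤ p) (hq : q ≤ -X n + 2 * π) :
    ∫ x in p..q, |df x| ≤ |f q - f p| + (Bq n : ℝ) ^ (n + 1) * (q - p) ^ 2 := by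
  have hd : 0 < q - p := by linarith
  obtain ⟨ξ, hξ, e⟩ := exists_hasDerivAt_eq_slope f df hpq
    (fun z _ => (hasDerivAt_f z).continuousAt.continuousWithinAt) (fun z _ => hasDerivAt_f z)
  have e1 : |f q - f p| = |df ξ| * (q - p) := by
    have : f q - f p = df ξ * (q - p) := by rw [e]; field_simp
    rw [this, abs_mul, abs_of_pos hd]
  have hb : ∀ x ∈ Icc p q, |df x| ≤ |df ξ| + (Bq n : ℝ) ^ (n + 1) * (q - p) := by
    intro x hx
    have a1 := (f_block (n := n) (x := x) ⟨hp.trans hx.1, hx.2.trans hq⟩).2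
    have a2 := (f_block (n := n) (x := ξ) ⟨hp.trans hξ.1.le, hξ.2.le.trans hq⟩).2
    have a3 := dgb_lip n x ξ
    rw [← a1, ← a2] at a3
    have a4 : |x - ξ| ≤ q - p := by
      rw [abs_le]; constructor <;> linarith [hx.1, hx.2, hξ.1, hξ.2]
    have a5 : |df x| ≤ |df ξ| + |df x - df ξ| := by
      have := abs_add_le (df ξ) (df x - df ξ)
      rwa [add_sub_cancel] at this
    have a6 : (Bq n : ℝ) ^ (n + 1) * |x - ξ| ≤ (Bq n : ℝ) ^ (n + 1) * (q - p) := by gcongr
    linarith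
  calc ∫ x in p..q, |df x| ≤ ∫ _ in p..q, (|df ξ| + (Bq n : ℝ) ^ (n + 1) * (q - p)) :=
        intervalIntegral.integral_mono_on hpq.le (continuous_df.abs.intervalIntegrable _ _)
          (continuous_const.intervalIntegrable _ _) hb
    _ = |f q - f p| + (Bq n : ℝ) ^ (n + 1) * (q - p) ^ 2 := by
        rw [intervalIntegral.integral_const, e1, smul_eq_mul]
        ring

theorem times {ξ : ℝ → ℝ} (hξ : ContinuousOn ξ (Icc 0 1)) {x : ℕ → ℝ} (hx : Monotone x)
    (h0 : ξ 0 = x 0) (h1 : ∀ k, x k ≤ ξ 1) :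
    ∃ t : ℕ → ℝ, Monotone t ∧ ∀ k, t k ∈ Icc (0 : ℝ) 1 ∧ ξ (t k) = x k := by
  have step : ∀ k, ∀ s : {s : ℝ // s ∈ Icc (0 : ℝ) 1 ∧ ξ s = x k},
      ∃ s' : {s : ℝ // s ∈ Icc (0 : ℝ) 1 ∧ ξ s = x (k + 1)}, s.1 ≤ s'.1 := by
    intro k s
    have h2 := intermediate_value_Icc (f := ξ) s.2.1.2 (hξ.mono (Icc_subset_Icc_left s.2.1.1))
    have h3 : x (k + 1) ∈ Icc (ξ s.1) (ξ 1) := ⟨by rw [s.2.2]; exact hx (Nat.le_succ k), h1 _⟩
    obtain ⟨s', hs', e⟩ := h2 h3
    exact ⟨⟨s', ⟨s.2.1.1.trans hs'.1, hs'.2⟩, e⟩, hs'.1⟩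
  choose F hF using step
  let T : ∀ k, {s : ℝ // s ∈ Icc (0 : ℝ) 1 ∧ ξ s = x k} :=
    fun k => Nat.rec (motive := fun k => {s : ℝ // s ∈ Icc (0 : ℝ) 1 ∧ ξ s = x k})
      ⟨0, ⟨le_rfl, zero_le_one⟩, h0⟩ (fun k s => F k s) k
  refine ⟨fun k => (T k).1, monotone_nat_of_le_succ fun k => hF k (T k), fun k => (T k).2⟩

/-- length of the curves crossing the block `n` -/
theorem long {n : ℕ} (γ : ℝ → E2) (hc : ContinuousOn γ (Icc 0 1)) (hO : ∀ t ∈ Icc (0 : ℝ) 1, γ t ∈ Om)
    (h0 : (γ 0) 0 = -X n) (h1 : (γ 1) 0 = -X n + 2 * π) :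
    ENNReal.ofReal (√((n : ℝ) + 1) / 64 - 2) ≤ eVariationOn γ (Icc 0 1) := by
  set E : ℝ := (Bq n : ℝ) ^ (n + 1) with hE
  have hB := B_ge n
  have hE1 : 1 ≤ E := one_le_pow₀ (by linarith)
  obtain ⟨m, hm1, hm2⟩ : ∃ m : ℕ, 49 * E ≤ m ∧ (m : ℝ) ≤ 49 * E + 1 :=
    ⟨⌈49 * E⌉₊, Nat.le_ceil _, (Nat.ceil_lt_add_one (by positivity)).le⟩
  have hm0 : (0 : ℝ) < m := by linarith
  have hpi := two_pi_lt
  have hpi' := two_pi_gt
  set x : ℕ → ℝ := fun k => min (-X n + 2 * π * k / m) (-X n + 2 * π) with hx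
  have hxk : ∀ k ≤ m, x k = -X n + 2 * π * k / m := by
    intro k hk
    rw [hx]
    apply min_eq_left
    have : 2 * π * k / m ≤ 2 * π := by
      rw [div_le_iff₀ hm0]
      gcongr
    linarith
  have hxm : Monotone x := by
    intro a b hab
    simp only [hx]
    gcongr
  have hξc : ContinuousOn (fun t => (γ t) 0) (Icc 0 1) := by
    have : Continuous fun y : E2 => y 0 := by fun_prop
    exact this.comp_continuousOn hc
  obtain ⟨t, ht, htk⟩ := times hξc hxm (by
    rw [hxk 0 (Nat.zero_le _)]; simp [h0]) (fun k => by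
    simp only [h1]; exact min_le_right _ _)
  have hsum := eVariationOn.sum_le (f := γ) (s := Icc 0 1) (n := m) ht (fun k => (htk k).1)
  refine le_trans ?_ hsum
  have hcell : ∀ k ∈ Finset.range m, ENNReal.ofReal ((∫ y in x k..x (k + 1), |df y|) -
      E * (2 * π / m) ^ 2 - wt (-X n + 2 * π)) ≤ edist (γ (t (k + 1))) (γ (t k)) := by
    intro k hk
    rw [Finset.mem_range] at hk
    have e1 := hxk k hk.le
    have e2 := hxk (k + 1) hk
    have hlt : x k < x (k + 1) := by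
      rw [e1, e2]
      have : 2 * π * k / m < 2 * π * ((k + 1 : ℕ) : ℝ) / m := by
        apply div_lt_div_of_pos_right _ hm0
        push_cast
        nlinarith [pi_pos]
      linarith
    have hge : -X n ≤ x k := by
      rw [e1]
      have : 0 ≤ 2 * π * k / m := by positivity
      linarith
    have hle : x (k + 1) ≤ -X n + 2 * π := min_le_right _ _
    have hc1 := cell hlt hge hle
    rw [← hE] at hc1
    have e3 : x (k + 1) - x k = 2 * π / m := by
      rw [e1, e2]; push_cast; ring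
    rw [e3] at hc1
    rw [edist_dist]
    apply ENNReal.ofReal_le_ofReal
    obtain ⟨P, hP⟩ := ptE_surj (γ (t k))
    obtain ⟨Q, hQ⟩ := ptE_surj (γ (t (k + 1)))
    have hPd : P ∈ dom := by
      rw [← mem_Om, hP]; exact hO _ (htk k).1
    have hQd : Q ∈ dom := by
      rw [← mem_Om, hQ]; exact hO _ (htk (k + 1)).1
    have hP1 : P.1 = x k := by
      have := (htk k).2
      rw [← hP] at this
      exact this
    have hQ1 : Q.1 = x (k + 1) := by
      have := (htk (k + 1)).2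
      rw [← hQ] at this
      exact this
    have hd : |Q.2 - P.2| ≤ dist (γ (t (k + 1))) (γ (t k)) := by
      rw [← hP, ← hQ, dist_ptE]
      apply Real.le_sqrt_of_sq_le
      rw [sq_abs]
      nlinarith [sq_nonneg (Q.1 - P.1)]
    have hw1 : wt P.1 ≤ wt (-X n + 2 * π) := wt_mono (by rw [hP1]; linarith)
    have hw2 : wt Q.1 ≤ wt (-X n + 2 * π) := wt_mono (by rw [hQ1]; linarith)
    have hf : |f (x (k + 1)) - f (x k)| ≤ |Q.2 - P.2| + wt (-X n + 2 * π) := by
      rw [← hP1, ← hQ1]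
      have a3 : |f Q.1 - f P.1 - (Q.2 - P.2)| ≤ wt (-X n + 2 * π) := by
        rw [abs_le]
        constructor <;> linarith [hPd.2.1, hPd.2.2, hQd.2.1, hQd.2.2]
      have := abs_add_le (Q.2 - P.2) (f Q.1 - f P.1 - (Q.2 - P.2))
      have e : Q.2 - P.2 + (f Q.1 - f P.1 - (Q.2 - P.2)) = f Q.1 - f P.1 := by ring
      rw [e] at this
      linarith
    linarith
  refine le_trans ?_ (Finset.sum_le_sum hcell)
  have hsl : ∀ (s : Finset ℕ) (a : ℕ → ℝ), ENNReal.ofReal (∑ k ∈ s, a k) ≤ ∑ k ∈ s, ENNReal.ofReal (a k) := by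
    intro s a
    induction s using Finset.cons_induction with
    | empty => simp
    | cons i s hi ih =>
      rw [Finset.sum_cons, Finset.sum_cons]
      exact ENNReal.ofReal_add_le.trans (by gcongr)
  refine le_trans ?_ (hsl _ _)
  apply ENNReal.ofReal_le_ofReal
  rw [Finset.sum_sub_distrib, Finset.sum_sub_distrib,
    intervalIntegral.sum_integral_adjacent_intervals (fun k _ => continuous_df.abs.intervalIntegrable _ _),
    Finset.sum_const, Finset.sum_const, Finset.card_range, nsmul_eq_mul, nsmul_eq_mul]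
  have e1 : x 0 = -X n := by rw [hxk 0 (Nat.zero_le _)]; simp
  have e2 : x m = -X n + 2 * π := by rw [hxk m le_rfl]; field_simp
  rw [e1, e2]
  have h2 := var_block n
  have h3 : (m : ℝ) * (E * (2 * π / m) ^ 2) ≤ 1 := by
    have : (m : ℝ) * (E * (2 * π / m) ^ 2) = E * (2 * π) ^ 2 / m := by field_simp
    rw [this, div_le_one hm0]
    have : (2 * π) ^ 2 ≤ 49 := by nlinarith
    nlinarith
  have h4 : (m : ℝ) * wt (-X n + 2 * π) ≤ 1 := by
    have hn : (0 : ℝ) ≤ n := by positivity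
    have a1 := wt_le (-X n + 2 * π)
    have a2 : E ≤ exp (5 * ((n : ℝ) + 1) ^ 2) := B_exp n
    have a3 : exp (5 * ((n : ℝ) + 1) ^ 2) ≤ exp (-2 * (-X n + 2 * π)) := by
      apply exp_le_exp.2
      unfold X
      nlinarith
    have a4 : (m : ℝ) ≤ 50 * exp (-2 * (-X n + 2 * π)) := by linarith
    have a5 := wt_pos (-X n + 2 * π)
    have a6 : 1 ≤ exp (-2 * (-X n + 2 * π)) := by linarith
    set v := exp (-2 * (-X n + 2 * π))
    calc (m : ℝ) * wt (-X n + 2 * π) ≤ (50 * v) * wt (-X n + 2 * π) := by gcongr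
      _ ≤ (500000 * v ^ 2) * wt (-X n + 2 * π) := by
          apply mul_le_mul_of_nonneg_right _ a5.le
          nlinarith
      _ ≤ 1 := by linarith
  linarith

theorem mem_left (n : ℕ) : ((-X n, wt (-X n) / 2) : ℝ × ℝ) ∈ dom := by
  have h := wt_pos (-X n)
  have hX : 0 < X n := by unfold X; positivity
  refine ⟨?_, ?_, ?_⟩
  · show -X n < 0
    linarith
  · show f (-X n) < wt (-X n) / 2
    rw [f_left]; linarith
  · show wt (-X n) / 2 < f (-X n) + wt (-X n)
    rw [f_left]; linarith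

theorem mem_right (n : ℕ) : ((-X n + 2 * π, wt (-X n + 2 * π) / 2) : ℝ × ℝ) ∈ dom := by
  have h := wt_pos (-X n + 2 * π)
  have hX : 32 ≤ X n := by
    unfold X
    have hn : (0 : ℝ) ≤ n := by positivity
    nlinarith
  have := two_pi_lt
  refine ⟨?_, ?_, ?_⟩
  · show -X n + 2 * π < 0
    linarith
  · show f (-X n + 2 * π) < wt (-X n + 2 * π) / 2
    rw [f_right]; linarith
  · show wt (-X n + 2 * π) / 2 < f (-X n + 2 * π) + wt (-X n + 2 * π)
    rw [f_right]; linarith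

theorem not_quasiconvex (K : ℝ) : ¬ ∀ x ∈ Om, ∀ y ∈ Om, ∃ γ : ℝ → E2, ContinuousOn γ (Icc 0 1) ∧
    γ 0 = x ∧ γ 1 = y ∧ (∀ t ∈ Icc (0 : ℝ) 1, γ t ∈ Om) ∧
    eVariationOn γ (Icc 0 1) ≤ ENNReal.ofReal (K * dist x y) := by
  intro H
  obtain ⟨n, hn⟩ := exists_nat_gt ((64 * (8 * |K| + 3)) ^ 2)
  obtain ⟨γ, hc, h0, h1, hO, hv⟩ := H _ (mem_Om.2 (mem_left n)) _ (mem_Om.2 (mem_right n))
  have hl := long γ hc hO (by rw [h0]; rfl) (by rw [h1]; rfl)
  have hd : dist (ptE (-X n, wt (-X n) / 2)) (ptE (-X n + 2 * π, wt (-X n + 2 * π) / 2)) ≤ 8 := by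
    refine (dist_ptE_le _ _).trans ?_
    simp only
    have a1 : |-X n - (-X n + 2 * π)| ≤ 7 := by
      have := two_pi_lt
      have := two_pi_gt
      rw [abs_le]; constructor <;> linarith
    have a2 : |wt (-X n) / 2 - wt (-X n + 2 * π) / 2| ≤ 1 := by
      have b1 := wt_pos (-X n)
      have b2 := wt_pos (-X n + 2 * π)
      have b3 := wt_small (mem_left n).1.le
      have b4 := wt_small (mem_right n).1.le
      simp only at b3 b4
      rw [abs_le]; constructor <;> linarith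
    linarith
  have h3 := hl.trans hv
  have h4 : K * dist (ptE (-X n, wt (-X n) / 2)) (ptE (-X n + 2 * π, wt (-X n + 2 * π) / 2)) ≤ |K| * 8 :=
    mul_le_mul (le_abs_self K) hd dist_nonneg (abs_nonneg K)
  have h5 : √((n : ℝ) + 1) / 64 - 2 ≤ |K| * 8 := by
    have := h3.trans (ENNReal.ofReal_le_ofReal h4)
    rwa [ENNReal.ofReal_le_ofReal_iff (by positivity)] at this
  have h6 : 64 * (8 * |K| + 3) ≤ √((n : ℝ) + 1) := by
    apply Real.le_sqrt_of_sq_le
    linarith
  linarith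

end Pool.Agent.KS6_41.QC
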