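import Pool.Agent.KS6_41.QC.Geo

set_option autoImplicit false

namespace Pool.Agent.KS6_41.QC

open Real Set MeasureTheory
open scoped ENNReal

theorem exists_z {x0 r1 : ℝ} (hx0 : x0 < 0) : ∃ z, x0 ≤ z ∧ z ≤ 0 ∧
    (z - x0) ^ 2 + (f z - f x0) ^ 2 ≤ r1 ^ 2 ∧ (z < 0 → r1 ^ 2 ≤ (z - x0) ^ 2 + (f z - f x0) ^ 2) := by
  have hf := continuous_f
  have hc : Continuous fun x => (x - x0) ^ 2 + (f x - f x0) ^ 2 := by fun_prop
  have hK : IsCompact (Icc x0 0 ∩ {x | (x - x0) ^ 2 + (f x - f x0) ^ 2 ≤ r1 ^ 2}) :=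
    isCompact_Icc.inter_right (isClosed_le hc continuous_const)
  have hne : (Icc x0 0 ∩ {x | (x - x0) ^ 2 + (f x - f x0) ^ 2 ≤ r1 ^ 2}).Nonempty := by
    refine ⟨x0, ⟨le_rfl, hx0.le⟩, ?_⟩
    show (x0 - x0) ^ 2 + (f x0 - f x0) ^ 2 ≤ r1 ^ 2
    simp
    positivity
  obtain ⟨z, hz, hmax⟩ := hK.exists_isGreatest hne
  refine ⟨z, hz.1.1, hz.1.2, hz.2, fun hz0 => ?_⟩
  by_contra hcon
  push Not at hcon
  have h1 : ∀ᶠ x in nhdsWithin z (Ioi z), (x - x0) ^ 2 + (f x - f x0) ^ 2 < r1 ^ 2 :=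
    (hc.continuousAt.eventually_lt continuousAt_const hcon).filter_mono nhdsWithin_le_nhds
  obtain ⟨x, hx1, hx2⟩ := (h1.and (Ioo_mem_nhdsGT hz0)).exists
  have := hmax ⟨⟨hz.1.1.trans hx2.1.le, hx2.2.le⟩, hx1.le⟩
  linarith [hx2.1]

/-- points of the ball are not far to the right of `z` -/
theorem top_bound {p P : ℝ × ℝ} {r z : ℝ} (hp : p ∈ dom) (hr : exp p.1 / 2 ≤ r)
    (hz0 : p.1 ≤ z)
    (hz2 : (z - p.1) ^ 2 + (f z - f p.1) ^ 2 ≤ (r / (1 + 1 / (8 * √(1 - p.1)))) ^ 2)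
    (hz3 : z < 0 → (r / (1 + 1 / (8 * √(1 - p.1)))) ^ 2 ≤ (z - p.1) ^ 2 + (f z - f p.1) ^ 2)
    (hP : P ∈ Bs p r) (hPz : z < P.1) : P.1 - z ≤ r / √(1 - p.1) := by
  have hr0 : 0 < r := lt_of_lt_of_le (by positivity) hr
  have hP0 : P.1 < 0 := hP.1.1
  have hb := Bs_abs hr0 hP
  have hL : 1 ≤ √(1 - p.1) := by rw [Real.one_le_sqrt]; linarith [hp.1]
  set L := √(1 - p.1) with hLd
  have hL0 : 0 < L := by linarith
  set r1 := r / (1 + 1 / (8 * L)) with hr1
  have hr10 : 0 < r1 := by positivity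
  have hr1r : r1 ≤ r := by
    rw [hr1]
    apply div_le_self hr0.le
    have : 0 < 1 / (8 * L) := by positivity
    linarith
  have hzx : z - p.1 ≤ r := by
    have : (z - p.1) ^ 2 ≤ r1 ^ 2 := by nlinarith [sq_nonneg (f z - f p.1)]
    have := abs_le_of_sq_le_sq this hr10.le
    linarith [le_abs_self (z - p.1)]
  have hxz : p.1 < z := by
    rcases hz0.eq_or_lt with h | h
    · exfalso
      have := hz3 (by linarith)
      rw [← h] at this
      have h2 : (p.1 - p.1) ^ 2 + (f p.1 - f p.1) ^ 2 = 0 := by ring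
      rw [h2] at this
      have : 0 < r1 ^ 2 := by positivity
      linarith
    · exact h
  by_contra hcon
  push Not at hcon
  have hgr : z - p.1 ≤ L * (P.1 - z) := by
    rw [div_lt_iff₀ hL0] at hcon
    linarith
  have hg := growth hxz hPz hP0.le hgr
  rw [← hLd] at hg
  have hw : wt P.1 * (64 * L) ≤ r := w1 hP0.le (by have := hb.1; rw [abs_lt] at this; linarith) hr
  set w := wt P.1 with hwd
  have hw0 : 0 < w := wt_pos _
  have hwp : wt p.1 ≤ w := wt_mono (by linarith)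
  have hfd : |f P.1 - f p.1| ≤ |P.2 - p.2| + w := by
    have a1 := hP.1.2
    have a2 := hp.2
    have a3 : |f P.1 - f p.1 - (P.2 - p.2)| ≤ w := by
      rw [abs_le]
      constructor <;> linarith [a1.1, a1.2, a2.1, a2.2]
    have := abs_add_le (P.2 - p.2) (f P.1 - f p.1 - (P.2 - p.2))
    have e : P.2 - p.2 + (f P.1 - f p.1 - (P.2 - p.2)) = f P.1 - f p.1 := by ring
    rw [e] at this
    linarith
  have hD : (P.1 - p.1) ^ 2 + (f P.1 - f p.1) ^ 2 ≤ (r + w) ^ 2 := by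
    have h1 : (f P.1 - f p.1) ^ 2 ≤ (|P.2 - p.2| + w) ^ 2 := by
      rw [← sq_abs (f P.1 - f p.1)]
      gcongr
    have h2 := hP.2
    have h3 := sq_abs (P.2 - p.2)
    have h4 := hb.2
    nlinarith [abs_nonneg (P.2 - p.2)]
  have hz4 := hz3 (by linarith)
  set t := 1 / L with ht
  have ht0 : 0 < t := by positivity
  have ht1 : t ≤ 1 := by rw [ht, div_le_one hL0]; exact hL
  have e1 : 1 / (8 * L) = t / 8 := by rw [ht]; field_simp
  have e2 : r = r1 * (1 + t / 8) := by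
    rw [hr1, e1]
    field_simp
  have e3 : w ≤ r * (t / 64) := by
    rw [ht]
    have : w ≤ r / (64 * L) := by
      rw [le_div_iff₀ (by positivity)]; exact hw
    refine this.trans (le_of_eq ?_)
    field_simp
  have h5 : r + w ≤ r1 * ((1 + t / 8) * (1 + t / 64)) := by
    calc r + w ≤ r + r * (t / 64) := by linarith
      _ = r1 * ((1 + t / 8) * (1 + t / 64)) := by
        nth_rewrite 1 2 [e2]
        ring
  have h6 : r1 ^ 2 * (1 + t) ≤ r1 ^ 2 * ((1 + t / 8) * (1 + t / 64)) ^ 2 := by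
    calc r1 ^ 2 * (1 + t) ≤ ((z - p.1) ^ 2 + (f z - f p.1) ^ 2) * (1 + t) := by gcongr
      _ ≤ (r + w) ^ 2 := hg.trans hD
      _ ≤ (r1 * ((1 + t / 8) * (1 + t / 64))) ^ 2 := by gcongr
      _ = _ := by ring
  have h7 : 1 + t ≤ ((1 + t / 8) * (1 + t / 64)) ^ 2 := le_of_mul_le_mul_left h6 (by positivity)
  have h8 : (1 + t / 8) * (1 + t / 64) ≤ 1 + 5 * t / 32 := by nlinarith
  have h9 : ((1 + t / 8) * (1 + t / 64)) ^ 2 ≤ (1 + 5 * t / 32) ^ 2 := by gcongr
  nlinarith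

/-- all points of the domain over `[z', z]` are in the ball -/
theorem inner {p P : ℝ × ℝ} {r z : ℝ} (hp : p ∈ dom) (hr : exp p.1 / 2 ≤ r)
    (hz0 : p.1 ≤ z) (hz1 : z ≤ 0)
    (hz2 : (z - p.1) ^ 2 + (f z - f p.1) ^ 2 ≤ (r / (1 + 1 / (8 * √(1 - p.1)))) ^ 2)
    (hP : P ∈ dom) (h1 : z - min r 1 / (64 * (1 - p.1)) ≤ P.1) (h2 : P.1 ≤ z) : P ∈ Bs p r := by
  have hr0 : 0 < r := lt_of_lt_of_le (by positivity) hr
  have hL : 1 ≤ √(1 - p.1) := by rw [Real.one_le_sqrt]; linarith [hp.1]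
  have hLsq : √(1 - p.1) ^ 2 = 1 - p.1 := Real.sq_sqrt (by linarith [hp.1])
  set L := √(1 - p.1) with hLd
  have hL0 : 0 < L := by linarith
  set r1 := r / (1 + 1 / (8 * L)) with hr1
  have hr10 : 0 < r1 := by positivity
  rw [← hLsq] at h1
  set m := min r 1 with hm
  have hm0 : 0 < m := lt_min hr0 one_pos
  have hm1 : m ≤ 1 := min_le_right _ _
  have hmr : m ≤ r := min_le_left _ _
  have hth : m / (64 * L ^ 2) ≤ 1 := by
    rw [div_le_one (by positivity)]
    nlinarith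
  have hr1r : r1 ≤ r := by
    rw [hr1]
    apply div_le_self hr0.le
    have : 0 < 1 / (8 * L) := by positivity
    linarith
  have hzx : z - p.1 ≤ r := by
    have : (z - p.1) ^ 2 ≤ r1 ^ 2 := by nlinarith [sq_nonneg (f z - f p.1)]
    have := abs_le_of_sq_le_sq this hr10.le
    linarith [le_abs_self (z - p.1)]
  have hw : wt z * (64 * L) ≤ r := w1 hz1 (by linarith) hr
  have hw1 : wt P.1 ≤ wt z := wt_mono h2
  have hw2 : wt p.1 ≤ wt z := wt_mono hz0
  have hlip : |f P.1 - f z| ≤ 2 * L * |P.1 - z| := by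
    refine (f_lip (x0 := p.1 - 1) (by linarith) (by linarith) hP.1.le hz1).trans ?_
    gcongr
    rw [Real.sqrt_le_left (by positivity), mul_pow, hLsq]
    linarith [hp.1]
  have hdz : |P.1 - z| ≤ m / (64 * L ^ 2) := by
    rw [abs_le]
    constructor <;> [linarith; skip]
    have : 0 < m / (64 * L ^ 2) := by positivity
    linarith
  have d1 : dist (ptE (z, f z)) (ptE (p.1, f p.1)) ≤ r1 := by
    rw [dist_ptE, Real.sqrt_le_left hr10.le]
    exact hz2
  have d2 : dist (ptE P) (ptE (z, f z)) ≤ m / (64 * L ^ 2) + (2 * L * (m / (64 * L ^ 2)) + wt z) := by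
    refine (dist_ptE_le _ _).trans ?_
    simp only
    have a1 : |P.2 - f z| ≤ |f P.1 - f z| + wt z := by
      have a3 : |P.2 - f P.1| ≤ wt z := by
        rw [abs_le]
        constructor <;> linarith [hP.2.1, hP.2.2, wt_pos z]
      have := abs_add_le (f P.1 - f z) (P.2 - f P.1)
      have e : f P.1 - f z + (P.2 - f P.1) = P.2 - f z := by ring
      rw [e] at this
      linarith
    have a2 : 2 * L * |P.1 - z| ≤ 2 * L * (m / (64 * L ^ 2)) := by gcongr
    linarith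
  have d3 : dist (ptE (p.1, f p.1)) (ptE p) ≤ wt z := by
    refine (dist_ptE_le _ _).trans ?_
    simp only [sub_self, abs_zero, zero_add]
    rw [abs_le]
    constructor <;> linarith [hp.2.1, hp.2.2, wt_pos z]
  have hd : dist (ptE P) (ptE p) < r := by
    have t1 := dist_triangle4 (ptE P) (ptE (z, f z)) (ptE (p.1, f p.1)) (ptE p)
    refine t1.trans_lt ?_
    set t := 1 / L with ht
    have ht0 : 0 < t := by positivity
    have ht1 : t ≤ 1 := by rw [ht, div_le_one hL0]; exact hL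
    have e1 : 1 / (8 * L) = t / 8 := by rw [ht]; field_simp
    have e2 : r = r1 * (1 + t / 8) := by
      rw [hr1, e1]
      field_simp
    have e3 : wt z ≤ r * (t / 64) := by
      rw [ht]
      have : wt z ≤ r / (64 * L) := by
        rw [le_div_iff₀ (by positivity)]; exact hw
      refine this.trans (le_of_eq ?_)
      field_simp
    have e4 : m / (64 * L ^ 2) ≤ r * (t / 64) := by
      have : m / (64 * L ^ 2) ≤ r / (64 * L) := by
        apply div_le_div₀ hr0.le hmr (by positivity)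
        nlinarith
      refine this.trans (le_of_eq ?_)
      rw [ht]; field_simp
    have e5 : 2 * L * (m / (64 * L ^ 2)) ≤ 2 * (r * (t / 64)) := by
      have : 2 * L * (m / (64 * L ^ 2)) ≤ 2 * L * (r / (64 * L ^ 2)) := by gcongr
      refine this.trans (le_of_eq ?_)
      rw [ht]; field_simp
    have e6 : r1 ≤ r - 7 / 64 * (r * t) := by
      have : r1 = r - r1 * (t / 8) := by linarith
      have h8 : r * (7 / 8) ≤ r1 := by
        rw [e2]
        nlinarith
      have h9 : r * (7 / 8) * (t / 8) ≤ r1 * (t / 8) := by gcongr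
      linarith
    have h10 : 0 < r * t := by positivity
    nlinarith
  have := (dist_ptE_lt hr0).1 hd
  exact ⟨hP, this⟩

end Pool.Agent.KS6_41.QC
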