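import Pool.Agent.KS6_41.QC.Mass

set_option autoImplicit false

namespace Pool.Agent.KS6_41.QC

open Real Set MeasureTheory
open scoped ENNReal

theorem vol_lower {a b : ℝ} (hb : b ≤ 0) :
    ENNReal.ofReal (wt a) * ENNReal.ofReal (b - a) ≤ volume {P : ℝ × ℝ | P ∈ dom ∧ P.1 ∈ Ioo a b} := by
  have hm : MeasurableSet {P : ℝ × ℝ | P ∈ dom ∧ P.1 ∈ Ioo a b} :=
    isOpen_dom.measurableSet.inter (measurable_fst measurableSet_Ioo)
  rw [Measure.volume_eq_prod, Measure.prod_apply hm]
  calc ENNReal.ofReal (wt a) * ENNReal.ofReal (b - a) = ∫⁻ _ in Ioo a b, ENNReal.ofReal (wt a) := by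
        rw [setLIntegral_const, Real.volume_Ioo]
    _ ≤ ∫⁻ x in Ioo a b, volume (Prod.mk x ⁻¹' {P : ℝ × ℝ | P ∈ dom ∧ P.1 ∈ Ioo a b}) := by
        refine setLIntegral_mono' measurableSet_Ioo fun x hx => ?_
        have hsub : Ioo (f x) (f x + wt x) ⊆ Prod.mk x ⁻¹' {P : ℝ × ℝ | P ∈ dom ∧ P.1 ∈ Ioo a b} := by
          intro y hy
          exact ⟨⟨by have := hx.2; show x < 0; linarith, hy.1, hy.2⟩, hx⟩
        refine le_trans ?_ (measure_mono hsub)
        rw [Real.volume_Ioo]
        apply ENNReal.ofReal_le_ofReal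
        have := wt_mono hx.1.le
        linarith
    _ ≤ _ := setLIntegral_le_lintegral _ _

theorem lint_upper (G : ℝ → ℝ≥0∞) (hG : Measurable G) (T : Set ℝ) (hT : MeasurableSet T) :
    ∫⁻ P in {P : ℝ × ℝ | P ∈ dom ∧ P.1 ∈ T}, G P.1 ≤ ∫⁻ x in T, G x * ENNReal.ofReal (wt x) := by
  have hm : MeasurableSet {P : ℝ × ℝ | P ∈ dom ∧ P.1 ∈ T} :=
    isOpen_dom.measurableSet.inter (measurable_fst hT)
  have hf := continuous_f.measurable
  have hw := continuous_wt.measurable
  rw [← lintegral_indicator hm, Measure.volume_eq_prod, lintegral_prod]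
  · rw [← lintegral_indicator hT]
    refine lintegral_mono fun x => ?_
    calc ∫⁻ y, {P : ℝ × ℝ | P ∈ dom ∧ P.1 ∈ T}.indicator (fun P => G P.1) (x, y)
        ≤ ∫⁻ y, (T.indicator G x) * (Ioo (f x) (f x + wt x)).indicator 1 y := by
          refine lintegral_mono fun y => ?_
          by_cases h : (x, y) ∈ {P : ℝ × ℝ | P ∈ dom ∧ P.1 ∈ T}
          · have h1 : x ∈ T := h.2
            have h2 : y ∈ Ioo (f x) (f x + wt x) := ⟨h.1.2.1, h.1.2.2⟩
            simp only [indicator_of_mem h, indicator_of_mem h1, indicator_of_mem h2, Pi.one_apply,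
              mul_one, le_refl]
          · simp only [indicator_of_notMem h, zero_le]
      _ = (T.indicator G x) * ENNReal.ofReal (wt x) := by
          rw [lintegral_const_mul _ (measurable_one.indicator measurableSet_Ioo),
            lintegral_indicator_one measurableSet_Ioo, Real.volume_Ioo]
          congr 2
          ring
      _ = T.indicator (fun x => G x * ENNReal.ofReal (wt x)) x := by
          by_cases h : x ∈ T
          · simp [h]
          · simp [h]
  · exact ((hG.comp measurable_fst).indicator hm).aemeasurable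

/-! ### A primitive of `2 + |f'|` -/

noncomputable def Pf (x : ℝ) : ℝ := ∫ t in (0 : ℝ)..x, (2 + |df t|)

theorem hasDerivAt_Pf (x : ℝ) : HasDerivAt Pf (2 + |df x|) x := by
  have hc : Continuous fun t => 2 + |df t| := continuous_const.add continuous_df.abs
  exact intervalIntegral.integral_hasDerivAt_right (hc.intervalIntegrable _ _)
    (hc.stronglyMeasurableAtFilter _ _) hc.continuousAt

theorem continuous_Pf : Continuous Pf :=
  continuous_iff_continuousAt.2 fun x => (hasDerivAt_Pf x).continuousAt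

theorem Pf_le {x y : ℝ} (hxy : x ≤ y) (hy : y ≤ 0) : |Pf y - Pf x| ≤ (2 + √(1 - x)) * (y - x) := by
  have hc : Convex ℝ (Icc x y) := convex_Icc _ _
  have := hc.norm_image_sub_le_of_norm_hasDerivWithin_le (f := Pf) (f' := fun t => 2 + |df t|)
    (C := 2 + √(1 - x))
    (fun u hu => (hasDerivAt_Pf u).hasDerivWithinAt) (fun u hu => ?_) ⟨le_rfl, hxy⟩ ⟨hxy, le_rfl⟩
  · simp only [Real.norm_eq_abs] at this
    rwa [abs_of_nonneg (by linarith : 0 ≤ y - x)] at this
  · rw [Real.norm_eq_abs, abs_of_nonneg (by positivity)]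
    have h1 := df_le (hu.2.trans hy)
    have h2 : √(1 - u) ≤ √(1 - x) := Real.sqrt_le_sqrt (by linarith [hu.1])
    linarith

/-- the length of the connecting curve -/
noncomputable def len (P Q : ℝ × ℝ) : ℝ≥0∞ :=
  ∫⁻ s in Icc (0 : ℝ) 1, ‖deriv (fun s => ptE (cr P Q s)) s‖ₑ

theorem len_small {p P Q : ℝ × ℝ} {r : ℝ} (hr : 0 < r) (hr2 : r ≤ exp p.1 / 2) (hp : p.1 ≤ 0)
    (hP : P ∈ Bs p r) (hQ : Q ∈ Bs p r) : len P Q ≤ ENNReal.ofReal (8 * r) := by
  unfold len
  calc ∫⁻ s in Icc (0 : ℝ) 1, ‖deriv (fun s => ptE (cr P Q s)) s‖ₑ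
      ≤ ∫⁻ _ in Icc (0 : ℝ) 1, ENNReal.ofReal (8 * r) := by
        refine setLIntegral_mono' measurableSet_Icc fun s hs => ?_
        rw [← ofReal_norm]
        exact ENNReal.ofReal_le_ofReal ((norm_deriv_cr P Q s).trans (small_speed hr hr2 hp hP hQ hs))
    _ = ENNReal.ofReal (8 * r) := by
        rw [setLIntegral_const, Real.volume_Icc]
        simp

theorem len_big {P Q : ℝ × ℝ} {W : ℝ} (hP : P ∈ dom) (hQ : Q ∈ dom) (hWP : wt P.1 ≤ W)
    (hWQ : wt Q.1 ≤ W) : len P Q ≤ ENNReal.ofReal (|Pf Q.1 - Pf P.1| + W) := by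
  have hW0 : 0 ≤ W := (wt_pos P.1).le.trans hWP
  have hc : Continuous fun s => |Q.1 - P.1| * (2 + |df (xs P Q s)|) + W := by
    have h1 := continuous_df.comp (continuous_xs P Q)
    exact (continuous_const.mul (continuous_const.add h1.abs)).add continuous_const
  have hpt : ∀ s ∈ Icc (0 : ℝ) 1, |Q.1 - P.1| + |dys P Q s| ≤ |Q.1 - P.1| * (2 + |df (xs P Q s)|) + W := by
    intro s hs
    have tP := tau_mem hP
    have tQ := tau_mem hQ
    have h1 : |dys P Q s| ≤ |df (xs P Q s)| * |Q.1 - P.1| + (W + 1 / 8 * |Q.1 - P.1|) := by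
      unfold dys
      refine (abs_add_le _ _).trans (add_le_add (le_of_eq (abs_mul _ _)) ((abs_add_le _ _).trans
        (add_le_add ?_ ?_)))
      · rw [abs_mul]
        have a1 : |tau Q - tau P| ≤ 1 := by
          rw [abs_le]; constructor <;> linarith [tP.1, tP.2, tQ.1, tQ.2]
        have a2 : |wt (xs P Q s)| ≤ W := by
          rw [abs_of_pos (wt_pos _)]
          have := (xs_mem (P := P) (Q := Q) (a := min P.1 Q.1) (b := max P.1 Q.1)
            ⟨min_le_left _ _, le_max_left _ _⟩ ⟨min_le_right _ _, le_max_right _ _⟩ hs).2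
          refine (wt_mono this).trans ?_
          rcases max_choice P.1 Q.1 with h | h <;> rw [h] <;> assumption
        calc _ ≤ 1 * W := by gcongr
          _ = W := one_mul W
      · rw [abs_mul, abs_mul, ← mul_assoc]
        have a1 := ts_mem hP hQ hs
        have a2 := dwt_small (xs_neg hP.1 hQ.1 hs).le
        have a3 := dwt_nonneg (xs P Q s)
        have a4 : |ts P Q s| * |dwt (xs P Q s)| ≤ 1 / 8 := by
          rw [abs_of_pos a1.1, abs_of_nonneg a3]
          nlinarith [a1.1, a1.2]
        gcongr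
    nlinarith [abs_nonneg (Q.1 - P.1), abs_nonneg (df (xs P Q s))]
  unfold len
  calc ∫⁻ s in Icc (0 : ℝ) 1, ‖deriv (fun s => ptE (cr P Q s)) s‖ₑ
      ≤ ∫⁻ s in Icc (0 : ℝ) 1, ENNReal.ofReal (|Q.1 - P.1| * (2 + |df (xs P Q s)|) + W) := by
        refine setLIntegral_mono' measurableSet_Icc fun s hs => ?_
        rw [← ofReal_norm]
        exact ENNReal.ofReal_le_ofReal ((norm_deriv_cr P Q s).trans (hpt s hs))
    _ = ENNReal.ofReal (∫ s in Icc (0 : ℝ) 1, (|Q.1 - P.1| * (2 + |df (xs P Q s)|) + W)) := by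
        rw [ofReal_integral_eq_lintegral_ofReal]
        · exact hc.continuousOn.integrableOn_Icc
        · exact Filter.Eventually.of_forall fun s => by positivity
    _ = ENNReal.ofReal (|Pf Q.1 - Pf P.1| + W) := by
        congr 1
        rw [integral_Icc_eq_integral_Ioc, ← intervalIntegral.integral_of_le zero_le_one]
        have hd : ∀ s ∈ uIcc (0 : ℝ) 1, HasDerivAt (fun s => Pf (xs P Q s))
            ((2 + |df (xs P Q s)|) * (Q.1 - P.1)) s := fun s _ =>
          (hasDerivAt_Pf (xs P Q s)).comp s (hasDerivAt_xs P Q s)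
        have hc2 : Continuous fun s => (2 + |df (xs P Q s)|) * (Q.1 - P.1) := by
          have h1 := continuous_df.comp (continuous_xs P Q)
          exact (continuous_const.add h1.abs).mul continuous_const
        have hi := intervalIntegral.integral_eq_sub_of_hasDerivAt hd (hc2.intervalIntegrable _ _)
        have e1 : xs P Q 1 = Q.1 := by unfold xs; ring
        have e0 : xs P Q 0 = P.1 := by unfold xs; ring
        simp only [e1, e0] at hi
        have hnn : 0 ≤ ∫ s in (0 : ℝ)..1, (2 + |df (xs P Q s)|) :=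
          intervalIntegral.integral_nonneg zero_le_one fun s _ => by positivity
        rw [intervalIntegral.integral_mul_const] at hi
        have hc3 : Continuous fun s => |Q.1 - P.1| * (2 + |df (xs P Q s)|) := by
          have h1 := continuous_df.comp (continuous_xs P Q)
          exact continuous_const.mul (continuous_const.add h1.abs)
        rw [intervalIntegral.integral_add (hc3.intervalIntegrable _ _)
          (continuous_const.intervalIntegrable _ _), intervalIntegral.integral_const_mul, ← hi, abs_mul,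
          abs_of_nonneg hnn]
        simp
        ring

end Pool.Agent.KS6_41.QC
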