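import Pool.Agent.KS6_41.QC.Vol

set_option autoImplicit false

namespace Pool.Agent.KS6_41.QC

open Real Set MeasureTheory
open scoped ENNReal

/-- squared distance in coordinates -/
noncomputable def q2 (p P : ℝ × ℝ) : ℝ := (P.1 - p.1) ^ 2 + (P.2 - p.2) ^ 2

theorem q2_eq (p P : ℝ × ℝ) : q2 p P = dist (ptE P) (ptE p) ^ 2 := by
  rw [dist_ptE, Real.sq_sqrt (by positivity)]
  rfl

/-- distance between the points of the graph over `x` and `z` -/
noncomputable def Dg (x z : ℝ) : ℝ := dist (ptE (z, f z)) (ptE (x, f x))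

theorem Dg_nonneg (x z : ℝ) : 0 ≤ Dg x z := dist_nonneg

theorem Dg_le {x z a : ℝ} (ha : 0 ≤ a) (h : (z - x) ^ 2 + (f z - f x) ^ 2 ≤ a ^ 2) : Dg x z ≤ a := by
  unfold Dg
  rw [dist_ptE, Real.sqrt_le_left ha]
  exact h

/-- `r - D ≥ r / (9 L)` -/
theorem gap {x z r L : ℝ} (hr : 0 < r) (hL : 1 ≤ L)
    (h : (z - x) ^ 2 + (f z - f x) ^ 2 ≤ (r / (1 + 1 / (8 * L))) ^ 2) :
    r ≤ 9 * L * (r - Dg x z) := by
  have hL0 : 0 < L := by linarith
  have h1 := Dg_le (by positivity) h
  have h2 : r / (1 + 1 / (8 * L)) = r - r / (8 * L + 1) := by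
    field_simp
    ring
  rw [h2] at h1
  have h3 : r ≤ 9 * L * (r / (8 * L + 1)) := by
    rw [mul_div_assoc', le_div_iff₀ (by positivity)]
    nlinarith
  have h4 : r / (8 * L + 1) ≤ r - Dg x z := by linarith
  calc r ≤ 9 * L * (r / (8 * L + 1)) := h3
    _ ≤ _ := by gcongr

/-- points over `[z - d, z]` are well inside the ball -/
theorem inner2 {p P : ℝ × ℝ} {r z : ℝ} (hp : p ∈ dom) (hr : exp p.1 / 2 ≤ r)
    (hz0 : p.1 ≤ z) (hz1 : z ≤ 0)
    (hz2 : (z - p.1) ^ 2 + (f z - f p.1) ^ 2 ≤ (r / (1 + 1 / (8 * √(1 - p.1)))) ^ 2)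
    (hP : P ∈ dom) (h1 : z - min r 1 / (64 * (1 - p.1)) ≤ P.1) (h2 : P.1 ≤ z) :
    q2 p P + r * (r - Dg p.1 z) / 4 ≤ r ^ 2 := by
  have hr0 : 0 < r := lt_of_lt_of_le (by positivity) hr
  have hL : 1 ≤ √(1 - p.1) := by rw [Real.one_le_sqrt]; linarith [hp.1]
  have hLsq : √(1 - p.1) ^ 2 = 1 - p.1 := Real.sq_sqrt (by linarith [hp.1])
  have hg := gap hr0 hL hz2
  set L := √(1 - p.1) with hLd
  have hL0 : 0 < L := by linarith
  have hD1 : Dg p.1 z ≤ r := by
    have : 0 < 9 * L * (r - Dg p.1 z) := by linarith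
    have := (mul_pos_iff_of_pos_left (by positivity : 0 < 9 * L)).1 this
    linarith
  set D := Dg p.1 z with hDd
  rw [← hLsq] at h1
  set m := min r 1 with hm
  have hm0 : 0 < m := lt_min hr0 one_pos
  have hmr : m ≤ r := min_le_left _ _
  have hm1 : m ≤ 1 := min_le_right _ _
  have hth : m / (64 * L ^ 2) ≤ 1 := by
    rw [div_le_one (by positivity)]
    nlinarith
  have hzx : z - p.1 ≤ r := by
    have h0 : 0 < r / (1 + 1 / (8 * L)) := by positivity
    have h1 : r / (1 + 1 / (8 * L)) ≤ r := by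
      apply div_le_self hr0.le
      have : 0 < 1 / (8 * L) := by positivity
      linarith
    have h2 : (z - p.1) ^ 2 ≤ (r / (1 + 1 / (8 * L))) ^ 2 := by
      nlinarith [sq_nonneg (f z - f p.1)]
    have := abs_le_of_sq_le_sq h2 h0.le
    linarith [le_abs_self (z - p.1)]
  have hw : wt z * (64 * L) ≤ r := w1 hz1 (by linarith) hr
  have hw1 : wt P.1 ≤ wt z := wt_mono h2
  have hw2 : wt p.1 ≤ wt z := wt_mono hz0
  have hlip : |f P.1 - f z| ≤ 2 * L * |P.1 - z| := by
    refine (f_lip (x0 := p.1 - 1) (by linarith) (by linarith) hP.1.le hz1).trans ?_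
    gcongr
    rw [Real.sqrt_le_left (by positivity), mul_pow, hLsq]
    linarith [hp.1]
  have hdz : |P.1 - z| ≤ m / (64 * L ^ 2) := by
    rw [abs_le]
    constructor <;> [linarith; skip]
    have : 0 < m / (64 * L ^ 2) := by positivity
    linarith
  have d2 : dist (ptE P) (ptE (z, f z)) ≤ m / (64 * L ^ 2) + (2 * L * (m / (64 * L ^ 2)) + wt z) := by
    refine (dist_ptE_le _ _).trans ?_
    simp only
    have a1 : |P.2 - f z| ≤ |f P.1 - f z| + wt z := by
      have a3 : |P.2 - f P.1| ≤ wt z := by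
        rw [abs_le]
        constructor <;> linarith [hP.2.1, hP.2.2, wt_pos z]
      have := abs_add_le (f P.1 - f z) (P.2 - f P.1)
      have e : f P.1 - f z + (P.2 - f P.1) = P.2 - f z := by ring
      rw [e] at this
      linarith
    have a2 : 2 * L * |P.1 - z| ≤ 2 * L * (m / (64 * L ^ 2)) := by gcongr
    linarith
  have d3 : dist (ptE (p.1, f p.1)) (ptE p) ≤ wt z := by
    refine (dist_ptE_le _ _).trans ?_
    simp only [sub_self, abs_zero, zero_add]
    rw [abs_le]
    constructor <;> linarith [hp.2.1, hp.2.2, wt_pos z]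
  have t1 := dist_triangle4 (ptE P) (ptE (z, f z)) (ptE (p.1, f p.1)) (ptE p)
  have hDe : dist (ptE (z, f z)) (ptE (p.1, f p.1)) = D := rfl
  rw [hDe] at t1
  set δ := dist (ptE P) (ptE p) with hδ
  have e4 : m / (64 * L ^ 2) * L ≤ r / (64 * L) := by
    have : m / (64 * L ^ 2) * L = m / (64 * L) := by field_simp
    rw [this]
    gcongr
  have e5 : m / (64 * L ^ 2) ≤ m / (64 * L ^ 2) * L := by
    have : 0 < m / (64 * L ^ 2) := by positivity
    nlinarith
  have e3 : wt z ≤ r / (64 * L) := by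
    rw [le_div_iff₀ (by positivity)]; exact hw
  have e6 : r / (64 * L) ≤ 9 / 64 * (r - D) := by
    rw [div_le_iff₀ (by positivity)]
    nlinarith
  have hδ1 : δ ≤ D + 45 / 64 * (r - D) := by nlinarith
  have hδ0 : 0 ≤ δ := dist_nonneg
  rw [q2_eq, ← hδ]
  nlinarith

/-- the height of the ball over points left of `z'` -/
theorem outer2 {p P : ℝ × ℝ} {r z h2 : ℝ} (hp : p ∈ dom) (hr : exp p.1 / 2 ≤ r)
    (hz0 : p.1 ≤ z) (hz1 : z ≤ 0)
    (hz2 : (z - p.1) ^ 2 + (f z - f p.1) ^ 2 ≤ (r / (1 + 1 / (8 * √(1 - p.1)))) ^ 2)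
    (hP : P ∈ dom) (h1 : P.1 ≤ z - min r 1 / (64 * (1 - p.1))) (hh : q2 p P + h2 < r ^ 2)
    (hh0 : 0 ≤ h2) :
    h2 ≤ r * (r - Dg p.1 z) / 4 * (14 * (1 + 200 * exp (-2 * (z - min r 1 / (64 * (1 - p.1)))) *
      (z - min r 1 / (64 * (1 - p.1)) - P.1))) := by
  have hr0 : 0 < r := lt_of_lt_of_le (by positivity) hr
  have hL : 1 ≤ √(1 - p.1) := by rw [Real.one_le_sqrt]; linarith [hp.1]
  have hLsq : √(1 - p.1) ^ 2 = 1 - p.1 := Real.sq_sqrt (by linarith [hp.1])
  have hg := gap hr0 hL hz2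
  set L := √(1 - p.1) with hLd
  have hL0 : 0 < L := by linarith
  have hD1 : 0 < r - Dg p.1 z := by
    have : 0 < 9 * L * (r - Dg p.1 z) := by linarith
    exact (mul_pos_iff_of_pos_left (by positivity : 0 < 9 * L)).1 this
  set D := Dg p.1 z with hDd
  have hD0 : 0 ≤ D := Dg_nonneg _ _
  set m := min r 1 with hm
  have hm0 : 0 < m := lt_min hr0 one_pos
  have hmr : m ≤ r := min_le_left _ _
  have hm1 : m ≤ 1 := min_le_right _ _
  have hx0 : 0 < 1 - p.1 := by linarith [hp.1]
  set d := m / (64 * (1 - p.1)) with hd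
  have hd0 : 0 < d := by positivity
  have hdL : L ^ 2 * d ≤ r / 64 := by
    rw [hLsq, hd]
    have : (1 - p.1) * (m / (64 * (1 - p.1))) = m / 64 := by field_simp
    rw [this]
    gcongr
  have hzx : z - p.1 ≤ r := by
    have h0 : 0 < r / (1 + 1 / (8 * L)) := by positivity
    have h1 : r / (1 + 1 / (8 * L)) ≤ r := by
      apply div_le_self hr0.le
      have : 0 < 1 / (8 * L) := by positivity
      linarith
    have h2 : (z - p.1) ^ 2 ≤ (r / (1 + 1 / (8 * L))) ^ 2 := by
      nlinarith [sq_nonneg (f z - f p.1)]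
    have := abs_le_of_sq_le_sq h2 h0.le
    linarith [le_abs_self (z - p.1)]
  have hPz : P.1 ≤ z := by linarith
  have hw : wt z * (64 * L) ≤ r := w1 hz1 (by linarith) hr
  have hw1 : wt P.1 ≤ wt z := wt_mono hPz
  have hw2 : wt p.1 ≤ wt z := wt_mono hz0
  have hs0 : 0 ≤ z - P.1 := by linarith
  have hlip : |f P.1 - f z| ≤ 2 * L * (z - P.1) := by
    rcases le_or_gt (p.1 - 1) P.1 with h | h
    · refine (f_lip (x0 := p.1 - 1) h (by linarith) hP.1.le hz1).trans ?_
      rw [abs_sub_comm, abs_of_nonneg hs0]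
      gcongr
      rw [Real.sqrt_le_left (by positivity), mul_pow, hLsq]
      linarith [hp.1]
    · have a1 := f_nonneg P.1
      have a2 := f_le P.1
      have a3 := f_nonneg z
      have a4 := f_le z
      have : |f P.1 - f z| ≤ 1 := by
        rw [abs_le]; constructor <;> linarith
      nlinarith
  -- the distance from `p`
  have d2 : dist (ptE (z, f z)) (ptE P) ≤ (z - P.1) + (2 * L * (z - P.1) + wt z) := by
    refine (dist_ptE_le _ _).trans ?_
    simp only
    rw [abs_of_nonneg hs0]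
    have a3 : |f P.1 - P.2| ≤ wt z := by
      rw [abs_le]
      constructor <;> linarith [hP.2.1, hP.2.2, wt_pos z]
    have := abs_add_le (f z - f P.1) (f P.1 - P.2)
    have e : f z - f P.1 + (f P.1 - P.2) = f z - P.2 := by ring
    have e7 : |f z - f P.1| = |f P.1 - f z| := abs_sub_comm _ _
    rw [e, e7] at this
    linarith
  have d3 : dist (ptE p) (ptE (p.1, f p.1)) ≤ wt z := by
    refine (dist_ptE_le _ _).trans ?_
    simp only [sub_self, abs_zero, zero_add]
    rw [abs_le]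
    constructor <;> linarith [hp.2.1, hp.2.2, wt_pos z]
  have t1 := dist_triangle4 (ptE (z, f z)) (ptE P) (ptE p) (ptE (p.1, f p.1))
  have hDe : dist (ptE (z, f z)) (ptE (p.1, f p.1)) = D := rfl
  rw [hDe] at t1
  rw [q2_eq] at hh
  set δ := dist (ptE P) (ptE p) with hδ
  have hδ0 : 0 ≤ δ := dist_nonneg
  have hδr : δ < r := by
    apply lt_of_pow_lt_pow_left₀ 2 hr0.le
    linarith
  set a := z - P.1 with ha
  have k1 : D - δ ≤ 3 * L * a + 2 * wt z := by nlinarith
  have k2 : h2 ≤ 2 * r * ((r - D) + (3 * L * a + 2 * wt z)) := by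
    have : h2 ≤ (r - δ) * (r + δ) := by nlinarith
    have k3 : (r - δ) * (r + δ) ≤ (r - δ) * (2 * r) := by
      apply mul_le_mul_of_nonneg_left _ (by linarith)
      linarith
    nlinarith
  refine k2.trans ?_
  -- compare with `r - D`
  have hw3 : 2 * wt z ≤ 18 / 64 * (r - D) := by
    have : wt z * (64 * L) ≤ 9 * L * (r - D) := hw.trans hg
    have : wt z * 64 ≤ 9 * (r - D) := by
      apply le_of_mul_le_mul_right _ hL0
      nlinarith
    linarith
  have hs : z - d - P.1 = a - d := by rw [ha]; ring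
  rw [hs]
  set s := a - d with hsd
  have hs1 : 0 ≤ s := by rw [hsd, ha]; linarith
  have hLd' : 3 * L * d ≤ 27 / 64 * (r - D) := by
    have h5 : L * (L * d) ≤ r / 64 := by nlinarith
    have h6 : L * (L * d) ≤ L * (9 / 64 * (r - D)) := by nlinarith
    have := le_of_mul_le_mul_left h6 hL0
    linarith
  have hkey : 1 - p.1 ≤ 12 * r * exp (-2 * (z - d)) := by
    set q := exp (-(z - d)) with hq
    have hv : exp (-2 * (z - d)) = q ^ 2 := by rw [hq, sq, ← exp_add]; ring_nf
    rw [hv]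
    have hqz : 1 - (z - d) ≤ q := by
      have := add_one_le_exp (-(z - d))
      rw [← hq] at this
      linarith
    have hq1 : 1 ≤ q := by linarith
    rcases le_or_gt r 1 with hr1 | hr1
    · have h1 : 1 / 6 ≤ r * q := by
        have e1 : exp (z - d - 1) / 2 ≤ r := by
          refine le_trans ?_ hr
          gcongr
          linarith
        have e2 : exp (z - d - 1) * q = exp (-1) := by rw [hq, ← exp_add]; ring_nf
        have e3 : 1 / 3 ≤ exp (-1 : ℝ) := by
          rw [exp_neg, one_div]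
          gcongr
          have := exp_one_lt_d9
          linarith
        nlinarith
      have h2 : 1 - p.1 ≤ 2 * q := by linarith
      nlinarith
    · have h2 : 1 - p.1 ≤ 2 * r * q := by nlinarith
      nlinarith [mul_pos hr0 (by linarith : 0 < q)]
  have hsL : 3 * L * s ≤ 27 * (r - D) * (12 * exp (-2 * (z - d))) * s := by
    apply mul_le_mul_of_nonneg_right _ hs1
    have h5 : L * (3 * L) ≤ L * (27 * (r - D) * (12 * exp (-2 * (z - d)))) := by
      have h6 : L * (3 * L) = 3 * (1 - p.1) := by rw [← hLsq]; ring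
      rw [h6]
      have he := exp_pos (-2 * (z - d))
      calc 3 * (1 - p.1) ≤ 3 * (12 * r * exp (-2 * (z - d))) := by linarith
        _ = (36 * exp (-2 * (z - d))) * r := by ring
        _ ≤ (36 * exp (-2 * (z - d))) * (9 * L * (r - D)) := by gcongr
        _ = _ := by ring
    exact le_of_mul_le_mul_left h5 hL0
  have hfin : (r - D) + (3 * L * a + 2 * wt z) ≤
      (r - D) / 8 * (14 * (1 + 200 * exp (-2 * (z - d)) * s)) := by
    have ha2 : 3 * L * a = 3 * L * d + 3 * L * s := by rw [hsd]; ring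
    rw [ha2]
    have he : 0 ≤ (r - D) * exp (-2 * (z - d)) * s := by positivity
    nlinarith
  calc 2 * r * ((r - D) + (3 * L * a + 2 * wt z))
      ≤ 2 * r * ((r - D) / 8 * (14 * (1 + 200 * exp (-2 * (z - d)) * s))) := by gcongr
    _ = _ := by ring

end Pool.Agent.KS6_41.QC
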