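import Pool.Agent.KS6_41.QC.W1

set_option autoImplicit false

namespace Pool.Agent.KS6_41.QC

open Real Set MeasureTheory
open scoped ENNReal

theorem pow_bound {y : ℝ} (hy : 0 ≤ y) (k : ℕ) :
    (14 * (1 + y)) ^ k ≤ 14 ^ k * k.factorial * 3 * exp y := by
  have h1 := Real.pow_div_factorial_le_exp (1 + y) (by linarith) k
  rw [div_le_iff₀ (by positivity)] at h1
  have h2 : exp (1 + y) = exp 1 * exp y := exp_add _ _
  have h3 : exp 1 ≤ 3 := by have := exp_one_lt_d9; linarith
  rw [mul_pow]
  calc (14 : ℝ) ^ k * (1 + y) ^ k ≤ 14 ^ k * (exp (1 + y) * k.factorial) := by gcongr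
    _ = 14 ^ k * k.factorial * exp 1 * exp y := by rw [h2]; ring
    _ ≤ _ := by gcongr

/-- the ratio of heights -/
noncomputable def Mh (z x : ℝ) : ℝ := 14 * (1 + 200 * exp (-2 * z) * (z - x))

theorem tail_pt2 {x z : ℝ} (hx : x ≤ z) (hz : z ≤ 0) (k : ℕ) :
    (2 + √(1 - x)) * (z - x) * wt x * Mh z x ^ k ≤
      14 ^ k * k.factorial * 3 * (3 * √(1 - z) * wt z / (1000 * exp (-2 * z))) *
        exp (250 * exp (-2 * z) * (x - z)) := by
  have h1 := tail_pt hx hz
  have he := exp_pos (-2 * z)
  have hs : 0 ≤ z - x := by linarith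
  have h2 := pow_bound (y := 200 * exp (-2 * z) * (z - x)) (by positivity) k
  have hw := wt_pos x
  have hwz := wt_pos z
  calc (2 + √(1 - x)) * (z - x) * wt x * Mh z x ^ k
      ≤ (3 * √(1 - z) * wt z / (1000 * exp (-2 * z)) * exp (500 * exp (-2 * z) * (x - z))) *
        (14 ^ k * k.factorial * 3 * exp (200 * exp (-2 * z) * (z - x))) := by
        apply mul_le_mul h1 h2
        · positivity
        · positivity
    _ = 14 ^ k * k.factorial * 3 * (3 * √(1 - z) * wt z / (1000 * exp (-2 * z))) *
        (exp (500 * exp (-2 * z) * (x - z)) * exp (200 * exp (-2 * z) * (z - x))) := by ring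
    _ ≤ _ := by
        rw [← exp_add]
        gcongr
        nlinarith [mul_nonneg he.le hs]

theorem tail_int2 {z : ℝ} (hz : z ≤ 0) (k : ℕ) :
    ∫⁻ x in Iic z, ENNReal.ofReal ((2 + √(1 - x)) * (z - x) * wt x * Mh z x ^ k) ≤
      ENNReal.ofReal (6 * 14 ^ k * k.factorial * (6 * √(1 - z) * wt z / (1000 * exp (-2 * z)) ^ 2)) := by
  have hc : 0 < 250 * exp (-2 * z) := by positivity
  set A : ℝ := 14 ^ k * k.factorial * 3 * (3 * √(1 - z) * wt z / (1000 * exp (-2 * z))) with hA
  have hA0 : 0 ≤ A := by have := wt_pos z; positivity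
  calc ∫⁻ x in Iic z, ENNReal.ofReal ((2 + √(1 - x)) * (z - x) * wt x * Mh z x ^ k)
      ≤ ∫⁻ x in Iic z, ENNReal.ofReal (A * exp (250 * exp (-2 * z) * (x - z))) := by
        refine setLIntegral_mono' measurableSet_Iic fun x hx => ENNReal.ofReal_le_ofReal (tail_pt2 hx hz k)
    _ = ENNReal.ofReal (∫ x in Iic z, A * exp (250 * exp (-2 * z) * (x - z))) := by
        rw [ofReal_integral_eq_lintegral_ofReal]
        · have h1 := (integrableOn_exp_mul_Iic hc z).const_mul (A * exp (-(250 * exp (-2 * z) * z)))
          refine h1.congr (Filter.Eventually.of_forall fun x => ?_)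
          simp only
          rw [mul_assoc, ← exp_add]
          ring_nf
        · refine Filter.Eventually.of_forall fun x => ?_
          positivity
    _ ≤ _ := by
        apply ENNReal.ofReal_le_ofReal
        rw [integral_const_mul]
        have e1 : ∫ x in Iic z, exp (250 * exp (-2 * z) * (x - z)) = 1 / (250 * exp (-2 * z)) := by
          have e2 : ∀ x, exp (250 * exp (-2 * z) * (x - z)) =
              exp (-(250 * exp (-2 * z) * z)) * exp (250 * exp (-2 * z) * x) := by
            intro x; rw [← exp_add]; ring_nf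
          simp only [e2]
          rw [integral_const_mul, integral_exp_mul_Iic hc, mul_div_assoc', ← exp_add]
          simp
        rw [e1, hA]
        apply le_of_eq
        have := exp_pos (-2 * z)
        field_simp
        ring

variable {F : Type*} [NormedAddCommGroup F] [InnerProductSpace ℝ F] [FiniteDimensional ℝ F]
  [MeasurableSpace F] [BorelSpace F]

/-- The ball in the product domain, in coordinates. -/
def Bt (p : ℝ × ℝ) (t : F) (r : ℝ) : Set ((ℝ × ℝ) × F) :=
  {X | X.1 ∈ dom ∧ q2 p X.1 + ‖X.2 - t‖ ^ 2 < r ^ 2}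

theorem isOpen_Bt (p : ℝ × ℝ) (t : F) (r : ℝ) : IsOpen (Bt p t r) := by
  have a1 : IsOpen {X : (ℝ × ℝ) × F | q2 p X.1 + ‖X.2 - t‖ ^ 2 < r ^ 2} := by
    unfold q2
    exact isOpen_lt (by fun_prop) (by fun_prop)
  exact (isOpen_dom.preimage continuous_fst).inter a1

theorem Bt_Bs {p : ℝ × ℝ} {t : F} {r : ℝ} {X : (ℝ × ℝ) × F} (h : X ∈ Bt p t r) : X.1 ∈ Bs p r := by
  refine ⟨h.1, ?_⟩
  have := h.2
  unfold q2 at this
  nlinarith [sq_nonneg ‖X.2 - t‖]

theorem Bt_norm {p : ℝ × ℝ} {t : F} {r : ℝ} (hr : 0 < r) {X : (ℝ × ℝ) × F} (h : X ∈ Bt p t r) :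
    ‖X.2 - t‖ < r := by
  have := h.2
  unfold q2 at this
  apply lt_of_pow_lt_pow_left₀ 2 hr.le
  nlinarith [sq_nonneg (X.1.1 - p.1), sq_nonneg (X.1.2 - p.2)]

open Module in
theorem lin_est2 {p : ℝ × ℝ} {t : F} {r : ℝ} (hp : p ∈ dom) (hr : 0 < r) (hbig : exp p.1 / 2 ≤ r) :
    ∃ z' : ℝ, ∫⁻ X in Bt p t r, ENNReal.ofReal |Pf X.1.1 - Pf z'| ≤
      ENNReal.ofReal ((6 * 14 ^ (finrank ℝ F) * (finrank ℝ F).factorial + 5) * r) *
        volume (Bt p t r) := by
  have hp0 : p.1 < 0 := hp.1
  obtain ⟨z, hz0, hz1, hz2, hz3⟩ := exists_z (x0 := p.1) (r1 := r / (1 + 1 / (8 * √(1 - p.1)))) hp0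
  have hL : 1 ≤ √(1 - p.1) := by rw [Real.one_le_sqrt]; linarith
  have hLsq : √(1 - p.1) ^ 2 = 1 - p.1 := Real.sq_sqrt (by linarith)
  have hzx : z - p.1 ≤ r := by
    have h0 : 0 < r / (1 + 1 / (8 * √(1 - p.1))) := by positivity
    have h1 : r / (1 + 1 / (8 * √(1 - p.1))) ≤ r := by
      apply div_le_self hr.le
      have : 0 < 1 / (8 * √(1 - p.1)) := by positivity
      linarith
    have h2 : (z - p.1) ^ 2 ≤ (r / (1 + 1 / (8 * √(1 - p.1)))) ^ 2 := by
      nlinarith [sq_nonneg (f z - f p.1)]
    have := abs_le_of_sq_le_sq h2 h0.le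
    linarith [le_abs_self (z - p.1)]
  set k := finrank ℝ F with hk
  set V := volume (Metric.ball (0 : F) 1) with hV
  set d := min r 1 / (64 * (1 - p.1)) with hd
  have hm0 : 0 < min r 1 := lt_min hr one_pos
  have hd0 : 0 < d := div_pos hm0 (by linarith)
  have hd1 : d ≤ 1 := by
    rw [hd, div_le_one (by linarith)]
    have := min_le_right r 1
    linarith
  have hgap := gap hr hL hz2
  have hD1 : 0 < r - Dg p.1 z := by
    have : 0 < 9 * √(1 - p.1) * (r - Dg p.1 z) := by linarith
    exact (mul_pos_iff_of_pos_left (by positivity : 0 < 9 * √(1 - p.1))).1 this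
  set H0 := r * (r - Dg p.1 z) / 4 with hH0
  have hH0p : 0 < H0 := by positivity
  set h0 := √H0 with hh0
  have hh0p : 0 < h0 := Real.sqrt_pos.2 hH0p
  have hh0s : h0 ^ 2 = H0 := Real.sq_sqrt hH0p.le
  refine ⟨z - d, ?_⟩
  set z' := z - d with hz'
  -- lower bound for the volume
  have hlow : ENNReal.ofReal (wt z') * ENNReal.ofReal (z - z') * (ENNReal.ofReal (h0 ^ k) * V) ≤
      volume (Bt p t r) := by
    calc ENNReal.ofReal (wt z') * ENNReal.ofReal (z - z') * (ENNReal.ofReal (h0 ^ k) * V)
        ≤ volume {P : ℝ × ℝ | P ∈ dom ∧ P.1 ∈ Ioo z' z} * volume (Metric.ball t h0) := by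
          rw [Measure.addHaar_ball_of_pos _ _ hh0p]
          gcongr
          exact vol_lower hz1
      _ = volume ({P : ℝ × ℝ | P ∈ dom ∧ P.1 ∈ Ioo z' z} ×ˢ Metric.ball t h0) := by
          rw [Measure.volume_eq_prod (ℝ × ℝ) F, Measure.prod_prod]
      _ ≤ volume (Bt p t r) := by
          refine measure_mono fun X hX => ?_
          have h1 := inner2 hp hbig hz0 hz1 hz2 hX.1.1 (by rw [← hd]; exact hX.1.2.1.le) hX.1.2.2.le
          refine ⟨hX.1.1, ?_⟩
          have h2 : ‖X.2 - t‖ < h0 := by
            have := hX.2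
            rwa [Metric.mem_ball, dist_eq_norm] at this
          have h3 : ‖X.2 - t‖ ^ 2 < h0 ^ 2 := by
            have := norm_nonneg (X.2 - t)
            gcongr
          rw [hh0s] at h3
          linarith
  have hGm : Measurable fun x : ℝ => ENNReal.ofReal |Pf x - Pf z'| :=
    (continuous_Pf.measurable.sub_const _).abs.ennreal_ofReal
  have hA : MeasurableSet {X : (ℝ × ℝ) × F | X.1.1 ≤ z'} :=
    (measurable_fst.comp measurable_fst) measurableSet_Iic
  have hBm : MeasurableSet (Bt p t r) := (isOpen_Bt p t r).measurableSet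
  rw [← lintegral_inter_add_sdiff (fun X : (ℝ × ℝ) × F => ENNReal.ofReal |Pf X.1.1 - Pf z'|)
    (Bt p t r) hA]
  have hMm : Measurable fun x : ℝ => ENNReal.ofReal ((h0 * Mh z' x) ^ k) * V := by
    unfold Mh
    fun_prop
  have part1 : ∫⁻ X in Bt p t r ∩ {X : (ℝ × ℝ) × F | X.1.1 ≤ z'}, ENNReal.ofReal |Pf X.1.1 - Pf z'| ≤
      ENNReal.ofReal (6 * 14 ^ k * k.factorial * r) * volume (Bt p t r) := by
    calc ∫⁻ X in Bt p t r ∩ {X : (ℝ × ℝ) × F | X.1.1 ≤ z'}, ENNReal.ofReal |Pf X.1.1 - Pf z'|
        ≤ ∫⁻ P in {P : ℝ × ℝ | P ∈ dom ∧ P.1 ∈ Iic z'}, ENNReal.ofReal |Pf P.1 - Pf z'| *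
            (ENNReal.ofReal ((h0 * Mh z' P.1) ^ k) * V) := by
          have hm1 : MeasurableSet {P : ℝ × ℝ | P ∈ dom ∧ P.1 ∈ Iic z'} :=
            isOpen_dom.measurableSet.inter (measurable_fst measurableSet_Iic)
          rw [← lintegral_indicator (hBm.inter hA), Measure.volume_eq_prod (ℝ × ℝ) F, lintegral_prod]
          · rw [← lintegral_indicator hm1]
            refine lintegral_mono fun P => ?_
            by_cases hP : P ∈ {P : ℝ × ℝ | P ∈ dom ∧ P.1 ∈ Iic z'}
            · rw [indicator_of_mem hP]
              have hM1 : 1 ≤ Mh z' P.1 := by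
                have := hP.2
                rw [mem_Iic] at this
                unfold Mh
                have h5 : 0 ≤ 200 * exp (-2 * z') * (z' - P.1) := by
                  have := exp_pos (-2 * z')
                  apply mul_nonneg (by positivity)
                  linarith
                linarith
              calc ∫⁻ y, (Bt p t r ∩ {X : (ℝ × ℝ) × F | X.1.1 ≤ z'}).indicator
                    (fun X => ENNReal.ofReal |Pf X.1.1 - Pf z'|) (P, y)
                  ≤ ∫⁻ y, ENNReal.ofReal |Pf P.1 - Pf z'| *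
                      (Metric.closedBall t (h0 * Mh z' P.1)).indicator 1 y := by
                    refine lintegral_mono fun y => ?_
                    by_cases h : (P, y) ∈ Bt p t r ∩ {X : (ℝ × ℝ) × F | X.1.1 ≤ z'}
                    · have h1 := outer2 (h2 := ‖y - t‖ ^ 2) hp hbig hz0 hz1 hz2 hP.1
                        (by rw [← hd]; exact hP.2) h.1.2 (by positivity)
                      rw [← hd, ← hz', ← hH0, ← hh0s] at h1
                      have h2 : y ∈ Metric.closedBall t (h0 * Mh z' P.1) := by
                        rw [Metric.mem_closedBall, dist_eq_norm]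
                        apply le_of_sq_le_sq _ (by positivity)
                        refine h1.trans ?_
                        show h0 ^ 2 * Mh z' P.1 ≤ _
                        rw [mul_pow]
                        gcongr
                        nlinarith
                      simp only [indicator_of_mem h, indicator_of_mem h2, Pi.one_apply, mul_one, le_refl]
                    · simp only [indicator_of_notMem h, zero_le]
                _ = ENNReal.ofReal |Pf P.1 - Pf z'| * (ENNReal.ofReal ((h0 * Mh z' P.1) ^ k) * V) := by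
                    rw [lintegral_const_mul _ (measurable_one.indicator measurableSet_closedBall),
                      lintegral_indicator_one measurableSet_closedBall,
                      Measure.addHaar_closedBall _ _ (by positivity)]
            · have : ∀ y, (Bt p t r ∩ {X : (ℝ × ℝ) × F | X.1.1 ≤ z'}).indicator
                    (fun X => ENNReal.ofReal |Pf X.1.1 - Pf z'|) (P, y) = 0 := by
                intro y
                apply indicator_of_notMem
                intro h
                exact hP ⟨h.1.1, h.2⟩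
              simp only [this, lintegral_zero, zero_le]
          · exact ((hGm.comp (measurable_fst.comp measurable_fst)).indicator
              (hBm.inter hA)).aemeasurable
      _ ≤ ∫⁻ x in Iic z', (ENNReal.ofReal |Pf x - Pf z'| * (ENNReal.ofReal ((h0 * Mh z' x) ^ k) * V)) *
            ENNReal.ofReal (wt x) :=
          lint_upper (fun x => ENNReal.ofReal |Pf x - Pf z'| * (ENNReal.ofReal ((h0 * Mh z' x) ^ k) * V))
            (hGm.mul hMm) _ measurableSet_Iic
      _ ≤ ∫⁻ x in Iic z', ENNReal.ofReal ((2 + √(1 - x)) * (z' - x) * wt x * Mh z' x ^ k) *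
            (ENNReal.ofReal (h0 ^ k) * V) := by
          refine setLIntegral_mono' measurableSet_Iic fun x hx => ?_
          have hx' : x ≤ z' := hx
          have hM0 : 0 ≤ Mh z' x := by
            unfold Mh
            have := exp_pos (-2 * z')
            have : 0 ≤ z' - x := by linarith
            positivity
          have h1 := Pf_le hx (show z' ≤ 0 by linarith)
          have hw := wt_pos x
          calc (ENNReal.ofReal |Pf x - Pf z'| * (ENNReal.ofReal ((h0 * Mh z' x) ^ k) * V)) *
                ENNReal.ofReal (wt x)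
              = (ENNReal.ofReal |Pf x - Pf z'| * ENNReal.ofReal (wt x) * ENNReal.ofReal (Mh z' x ^ k)) *
                (ENNReal.ofReal (h0 ^ k) * V) := by
                rw [mul_pow, ENNReal.ofReal_mul (by positivity)]
                ring
            _ = ENNReal.ofReal (|Pf x - Pf z'| * wt x * Mh z' x ^ k) * (ENNReal.ofReal (h0 ^ k) * V) := by
                rw [ENNReal.ofReal_mul (by positivity), ENNReal.ofReal_mul (abs_nonneg _)]
            _ ≤ _ := by
                gcongr
                rw [abs_sub_comm]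
                exact h1
      _ = (∫⁻ x in Iic z', ENNReal.ofReal ((2 + √(1 - x)) * (z' - x) * wt x * Mh z' x ^ k)) *
            (ENNReal.ofReal (h0 ^ k) * V) := by
          rw [lintegral_mul_const]
          have := continuous_wt.measurable
          unfold Mh
          fun_prop
      _ ≤ ENNReal.ofReal (6 * 14 ^ k * k.factorial *
            (6 * √(1 - z') * wt z' / (1000 * exp (-2 * z')) ^ 2)) * (ENNReal.ofReal (h0 ^ k) * V) := by
          gcongr
          exact tail_int2 (by linarith) k
      _ ≤ ENNReal.ofReal (6 * 14 ^ k * k.factorial * (r * (1 / (64 * (1 - p.1)) * min r 1 * wt z'))) *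
            (ENNReal.ofReal (h0 ^ k) * V) := by
          gcongr
          exact w3 hp0.le (by linarith) (by linarith) hbig
      _ = ENNReal.ofReal (6 * 14 ^ k * k.factorial * r) *
            (ENNReal.ofReal (wt z') * ENNReal.ofReal (z - z') * (ENNReal.ofReal (h0 ^ k) * V)) := by
          have e : 6 * 14 ^ k * k.factorial * (r * (1 / (64 * (1 - p.1)) * min r 1 * wt z')) =
              (6 * 14 ^ k * k.factorial * r) * (wt z' * (z - z')) := by
            have e1 : z - z' = min r 1 / (64 * (1 - p.1)) := by rw [hz', hd]; ring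
            rw [e1]
            ring
          rw [e, ENNReal.ofReal_mul (by positivity), ENNReal.ofReal_mul (wt_pos z').le]
          ring
      _ ≤ _ := by gcongr
  have part2 : ∫⁻ X in Bt p t r \ {X : (ℝ × ℝ) × F | X.1.1 ≤ z'}, ENNReal.ofReal |Pf X.1.1 - Pf z'| ≤
      ENNReal.ofReal (5 * r) * volume (Bt p t r) := by
    calc ∫⁻ X in Bt p t r \ {X : (ℝ × ℝ) × F | X.1.1 ≤ z'}, ENNReal.ofReal |Pf X.1.1 - Pf z'|
        ≤ ∫⁻ _ in Bt p t r \ {X : (ℝ × ℝ) × F | X.1.1 ≤ z'}, ENNReal.ofReal (5 * r) := by
          refine setLIntegral_mono' (hBm.diff hA) fun X hX => ?_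
          apply ENNReal.ofReal_le_ofReal
          have hPs := Bt_Bs hX.1
          have hPz : z' < X.1.1 := by
            have := hX.2
            simpa using this
          have h1 := Pf_le hPz.le hX.1.1.1.le
          refine h1.trans ?_
          set L := √(1 - p.1) with hLd
          have hL0 : 0 < L := by linarith
          have h2 : X.1.1 - z ≤ r / L := by
            rcases le_or_gt X.1.1 z with h | h
            · have : 0 < r / L := by positivity
              linarith
            · exact top_bound hp hbig hz0 hz2 hz3 hPs h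
          have h3 : √(1 - z') ≤ 2 * L := by
            rw [Real.sqrt_le_left (by positivity), mul_pow, hLsq]
            linarith
          have h4 : d ≤ r / (64 * L) := by
            rw [hd, ← hLsq]
            apply div_le_div₀ hr.le (min_le_left _ _) (by positivity)
            nlinarith
          have h5 : X.1.1 - z' ≤ r / L + r / (64 * L) := by
            rw [hz']; linarith
          calc (2 + √(1 - z')) * (X.1.1 - z') ≤ (4 * L) * (r / L + r / (64 * L)) := by
                gcongr
                linarith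
            _ = 4 * r + r / 16 := by field_simp; ring
            _ ≤ 5 * r := by linarith
      _ = ENNReal.ofReal (5 * r) * volume (Bt p t r \ {X : (ℝ × ℝ) × F | X.1.1 ≤ z'}) := by
          rw [setLIntegral_const]
      _ ≤ _ := by
          gcongr
          exact sdiff_subset
  calc _ ≤ ENNReal.ofReal (6 * 14 ^ k * k.factorial * r) * volume (Bt p t r) +
        ENNReal.ofReal (5 * r) * volume (Bt p t r) := add_le_add part1 part2
    _ = _ := by
        rw [← add_mul, ← ENNReal.ofReal_add (by positivity) (by positivity)]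
        congr 2
        ring

end Pool.Agent.KS6_41.QC
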