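import Pool.Agent.KS6_41.QC.W2
import Pool.Agent.KS6_41.QC.Est

set_option autoImplicit false

namespace Pool.Agent.KS6_41.QC

open Real Set MeasureTheory
open scoped ENNReal NNReal

variable {F : Type*} [NormedAddCommGroup F] [InnerProductSpace ℝ F] [FiniteDimensional ℝ F]
  [MeasurableSpace F] [BorelSpace F]

/-- the bound for the length of the connecting curve in the product domain -/
noncomputable def len2 (z : ((ℝ × ℝ) × F) × ((ℝ × ℝ) × F)) : ℝ≥0∞ :=
  len z.1.1 z.2.1 + ‖z.2.2 - z.1.2‖ₑ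

/-- the constant of the Poincaré inequality -/
noncomputable def Cst (k : ℕ) : ℝ := 12 * 14 ^ k * k.factorial + 13

theorem Cst_pos (k : ℕ) : 0 < Cst k := by unfold Cst; positivity

open Module in
theorem ball_est2 {p : ℝ × ℝ} {t : F} {r : ℝ} (hp : p ∈ dom) (hr : 0 < r) :
    ∫⁻ z, len2 z ∂((volume.restrict (Bt p t r)).prod (volume.restrict (Bt p t r))) ≤
      ENNReal.ofReal (Cst (finrank ℝ F) * r) * (volume.restrict (Bt p t r)) univ *
        (volume.restrict (Bt p t r)) univ := by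
  have hBm := (isOpen_Bt p t r).measurableSet
  have hp0 : p.1 < 0 := hp.1
  set k := finrank ℝ F with hk
  have hC0 : (0 : ℝ) ≤ 6 * 14 ^ k * k.factorial := by positivity
  have hN : ∀ z ∈ Bt p t r ×ˢ Bt p t r, ‖z.2.2 - z.1.2‖ₑ ≤ ENNReal.ofReal (2 * r) := by
    intro z hz
    rw [← ofReal_norm]
    apply ENNReal.ofReal_le_ofReal
    have h1 := Bt_norm hr hz.1
    have h2 := Bt_norm hr hz.2
    have h3 : z.2.2 - z.1.2 = (z.2.2 - t) - (z.1.2 - t) := by abel
    rw [h3]
    refine (norm_sub_le _ _).trans ?_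
    linarith
  rw [Measure.restrict_apply_univ]
  rcases le_or_gt r (exp p.1 / 2) with hs | hs
  · rw [Measure.prod_restrict]
    calc ∫⁻ z in Bt p t r ×ˢ Bt p t r, len2 z ∂((volume : Measure ((ℝ × ℝ) × F)).prod volume)
        ≤ ∫⁻ _ in Bt p t r ×ˢ Bt p t r, (ENNReal.ofReal (8 * r) + ENNReal.ofReal (2 * r))
          ∂((volume : Measure ((ℝ × ℝ) × F)).prod volume) :=
          setLIntegral_mono' (hBm.prod hBm) fun z hz => add_le_add
            (len_small hr hs hp0.le (Bt_Bs hz.1) (Bt_Bs hz.2)) (hN z hz)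
      _ = (ENNReal.ofReal (8 * r) + ENNReal.ofReal (2 * r)) * volume (Bt p t r) * volume (Bt p t r) := by
          rw [setLIntegral_const, Measure.prod_prod, mul_assoc]
      _ ≤ _ := by
          rw [← ENNReal.ofReal_add (by positivity) (by positivity)]
          gcongr
          unfold Cst
          nlinarith
  · obtain ⟨z', hz'⟩ := lin_est2 (t := t) hp hr hs.le
    set μ := volume.restrict (Bt p t r) with hμ
    have hGm : Measurable fun P : (ℝ × ℝ) × F => ENNReal.ofReal |Pf P.1.1 - Pf z'| :=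
      ((continuous_Pf.measurable.sub_const _).abs.ennreal_ofReal).comp
        (measurable_fst.comp measurable_fst)
    have huniv : μ univ = volume (Bt p t r) := Measure.restrict_apply_univ _
    have hle : ∫⁻ z, len2 z ∂(μ.prod μ) ≤ ∫⁻ z, (ENNReal.ofReal |Pf z.1.1.1 - Pf z'| * 1 +
        1 * ENNReal.ofReal |Pf z.2.1.1 - Pf z'| + ENNReal.ofReal (3 * r)) ∂(μ.prod μ) := by
      rw [hμ, Measure.prod_restrict]
      refine setLIntegral_mono' (hBm.prod hBm) fun z hz => ?_
      have hz1 := Bt_Bs hz.1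
      have hz2 := Bt_Bs hz.2
      have hb1 := Bs_abs hr hz1
      have hb2 := Bs_abs hr hz2
      rw [abs_lt, abs_lt] at hb1 hb2
      have hL : 1 ≤ √(1 - p.1) := by rw [Real.one_le_sqrt]; linarith
      have w1' : wt z.1.1.1 ≤ r := by
        have := w1 (x0 := p.1) hz1.1.1.le (by linarith [hb1.1.2]) hs.le
        have := wt_pos z.1.1.1
        nlinarith
      have w2' : wt z.2.1.1 ≤ r := by
        have := w1 (x0 := p.1) hz2.1.1.le (by linarith [hb2.1.2]) hs.le
        have := wt_pos z.2.1.1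
        nlinarith
      refine (add_le_add (len_big hz1.1 hz2.1 w1' w2') (hN z hz)).trans ?_
      rw [mul_one, one_mul, ← ENNReal.ofReal_add (abs_nonneg _) (abs_nonneg _),
        ← ENNReal.ofReal_add (by positivity) (by positivity),
        ← ENNReal.ofReal_add (by positivity) (by positivity)]
      apply ENNReal.ofReal_le_ofReal
      have := abs_sub_le (Pf z.2.1.1) (Pf z') (Pf z.1.1.1)
      rw [abs_sub_comm (Pf z') (Pf z.1.1.1)] at this
      linarith
    have hGm1 : Measurable fun z : ((ℝ × ℝ) × F) × ((ℝ × ℝ) × F) =>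
        ENNReal.ofReal |Pf z.1.1.1 - Pf z'| * 1 :=
      (hGm.comp measurable_fst).mul_const 1
    refine hle.trans ?_
    rw [lintegral_add_right _ measurable_const, lintegral_add_left hGm1,
      lintegral_const, ← univ_prod_univ, Measure.prod_prod,
      lintegral_prod_mul (f := fun P : (ℝ × ℝ) × F => ENNReal.ofReal |Pf P.1.1 - Pf z'|)
        (g := fun _ => 1) hGm.aemeasurable aemeasurable_const,
      lintegral_prod_mul (f := fun _ => 1)
        (g := fun P : (ℝ × ℝ) × F => ENNReal.ofReal |Pf P.1.1 - Pf z'|)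
        aemeasurable_const hGm.aemeasurable]
    simp only [lintegral_const, one_mul]
    rw [huniv]
    calc (∫⁻ P, ENNReal.ofReal |Pf P.1.1 - Pf z'| ∂μ) * volume (Bt p t r) +
          volume (Bt p t r) * (∫⁻ P, ENNReal.ofReal |Pf P.1.1 - Pf z'| ∂μ) +
          ENNReal.ofReal (3 * r) * (volume (Bt p t r) * volume (Bt p t r))
        ≤ (ENNReal.ofReal ((6 * 14 ^ k * k.factorial + 5) * r) * volume (Bt p t r)) * volume (Bt p t r) +
          volume (Bt p t r) * (ENNReal.ofReal ((6 * 14 ^ k * k.factorial + 5) * r) * volume (Bt p t r)) +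
          ENNReal.ofReal (3 * r) * (volume (Bt p t r) * volume (Bt p t r)) := by
            gcongr
      _ = (ENNReal.ofReal ((6 * 14 ^ k * k.factorial + 5) * r) +
          ENNReal.ofReal ((6 * 14 ^ k * k.factorial + 5) * r) + ENNReal.ofReal (3 * r)) *
          volume (Bt p t r) * volume (Bt p t r) := by ring
      _ = _ := by
          rw [← ENNReal.ofReal_add (by positivity) (by positivity),
            ← ENNReal.ofReal_add (by positivity) (by positivity)]
          congr 3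
          unfold Cst
          ring

theorem null_cr {N : Set (ℝ × ℝ)} (hN : MeasurableSet N) (h0 : volume N = 0) (P : ℝ × ℝ) {s : ℝ}
    (hs : s ≠ 0) : volume {Q | cr P Q s ∈ N} = 0 := by
  have hw := wt_pos
  have h1 := continuous_f.measurable
  have h2 := continuous_wt.measurable
  have := null_affine (c := s) (d := (1 - s) * P.1) hs
    (a := fun x => s * wt (s * x + (1 - s) * P.1) / wt x)
    (b := fun x => f (s * x + (1 - s) * P.1) + ((1 - s) * tau P - s * f x / wt x) *
      wt (s * x + (1 - s) * P.1))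
    (fun x => div_ne_zero (mul_ne_zero hs (hw _).ne') (hw x).ne')
    (by fun_prop) (by fun_prop) hN h0
  refine Eq.trans (congrArg _ (Set.ext fun Q => ?_)) this
  have e : cr P Q s = (s * Q.1 + (1 - s) * P.1, s * wt (s * Q.1 + (1 - s) * P.1) / wt Q.1 * Q.2 +
      (f (s * Q.1 + (1 - s) * P.1) + ((1 - s) * tau P - s * f Q.1 / wt Q.1) *
      wt (s * Q.1 + (1 - s) * P.1))) := by
    have e1 : xs P Q s = s * Q.1 + (1 - s) * P.1 := by unfold xs; ring
    have := (hw Q.1).ne'
    unfold cr ys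
    rw [e1]
    ext
    · rfl
    · simp only [ts]
      have e2 : tau Q = (Q.2 - f Q.1) / wt Q.1 := rfl
      rw [e2]
      field_simp
      ring
  simp only [Set.mem_ofPred_eq, e]

/-- the connecting curve in the product domain -/
noncomputable def cr2 (X Y : (ℝ × ℝ) × F) (s : ℝ) : (ℝ × ℝ) × F :=
  (cr X.1 Y.1 s, X.2 + s • (Y.2 - X.2))

theorem measurable_cr2 : Measurable fun z : (((ℝ × ℝ) × F) × ((ℝ × ℝ) × F)) × ℝ =>
    cr2 z.1.1 z.1.2 z.2 := by
  unfold cr2
  refine Measurable.prodMk ?_ (by fun_prop)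
  exact measurable_cr.comp (f := fun z : (((ℝ × ℝ) × F) × ((ℝ × ℝ) × F)) × ℝ =>
    ((z.1.1.1, z.1.2.1), z.2)) (by fun_prop)

theorem ae_curve2 {N : Set ((ℝ × ℝ) × F)} (hN : MeasurableSet N) (h0 : volume N = 0) :
    ∀ᵐ z ∂((volume : Measure ((ℝ × ℝ) × F)).prod (volume : Measure ((ℝ × ℝ) × F))),
      ∀ᵐ s ∂(volume.restrict (Icc (0 : ℝ) 1)), cr2 z.1 z.2 s ∉ N := by
  refine (Measure.ae_ae_comm (μ := (volume : Measure ((ℝ × ℝ) × F)).prod
    (volume : Measure ((ℝ × ℝ) × F)))
    (ν := volume.restrict (Icc (0 : ℝ) 1)) (p := fun z s => cr2 z.1 z.2 s ∉ N)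
    (measurable_cr2 hN).compl).2 ?_
  have hne : ∀ᵐ s ∂(volume.restrict (Icc (0 : ℝ) 1)), s ≠ 0 := by
    apply ae_restrict_of_ae
    rw [ae_iff]
    simp
  filter_upwards [hne] with s hs
  rw [ae_iff]
  simp only [not_not]
  have hms : MeasurableSet {z : ((ℝ × ℝ) × F) × ((ℝ × ℝ) × F) | cr2 z.1 z.2 s ∈ N} := by
    have : Measurable fun z : ((ℝ × ℝ) × F) × ((ℝ × ℝ) × F) => cr2 z.1 z.2 s :=
      measurable_cr2.comp (measurable_id.prodMk measurable_const)
    exact this hN
  rw [Measure.measure_prod_null hms]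
  refine Filter.Eventually.of_forall fun X => ?_
  have hN1 : MeasurableSet {P : ℝ × ℝ | volume (Prod.mk P ⁻¹' N) ≠ 0} :=
    (measurable_measure_prodMk_left hN) (measurableSet_singleton 0).compl
  have hN2 : volume {P : ℝ × ℝ | volume (Prod.mk P ⁻¹' N) ≠ 0} = 0 := by
    rw [Measure.volume_eq_prod (ℝ × ℝ) F, Measure.measure_prod_null hN] at h0
    exact h0
  have h1 := null_cr hN1 hN2 X.1 hs
  have hM : MeasurableSet (Prod.mk X ⁻¹' {z : ((ℝ × ℝ) × F) × ((ℝ × ℝ) × F) | cr2 z.1 z.2 s ∈ N}) :=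
    measurable_prodMk_left hms
  show volume (Prod.mk X ⁻¹' {z : ((ℝ × ℝ) × F) × ((ℝ × ℝ) × F) | cr2 z.1 z.2 s ∈ N}) = 0
  rw [Measure.volume_eq_prod (ℝ × ℝ) F, Measure.measure_prod_null hM]
  have h2 : ∀ᵐ Q ∂(volume : Measure (ℝ × ℝ)), volume (Prod.mk (cr X.1 Q s) ⁻¹' N) = 0 := by
    rw [ae_iff]
    exact h1
  filter_upwards [h2] with Q hQ
  have e : (Prod.mk Q ⁻¹' (Prod.mk X ⁻¹' {z : ((ℝ × ℝ) × F) × ((ℝ × ℝ) × F) | cr2 z.1 z.2 s ∈ N})) =
      (fun y : F => s • y) ⁻¹' ((fun y => (X.2 - s • X.2) + y) ⁻¹' (Prod.mk (cr X.1 Q s) ⁻¹' N)) := by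
    ext y
    simp only [mem_preimage, Set.mem_ofPred_eq, cr2]
    have : X.2 + s • (y - X.2) = X.2 - s • X.2 + s • y := by rw [smul_sub]; abel
    rw [this]
  rw [e, Measure.addHaar_preimage_smul _ hs, measure_preimage_add, hQ, mul_zero]
  rfl

end Pool.Agent.KS6_41.QC
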