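import Pool.Agent.KS6_41.QC.W3
import Pool.Agent.KS6_41.QC.Len

set_option autoImplicit false

namespace Pool.Agent.KS6_41.QC

open Real Set MeasureTheory Metric Module
open scoped ENNReal NNReal

variable {F : Type*} [NormedAddCommGroup F] [InnerProductSpace ℝ F] [FiniteDimensional ℝ F]
  [MeasurableSpace F] [BorelSpace F]
variable {E : Type*} [NormedAddCommGroup E] [InnerProductSpace ℝ E] [FiniteDimensional ℝ E]
  [MeasurableSpace E] [BorelSpace E]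

/-- orthogonal coordinates `(x, y, t)` on `E` -/
structure Emb (Ψ : (ℝ × ℝ) × F ≃ᵐ E) (A : E2 × F →L[ℝ] E) : Prop where
  mp : MeasurePreserving Ψ
  eq : ∀ X, Ψ X = A (ptE X.1, X.2)
  nrm : ∀ v w, ‖A (v, w)‖ ^ 2 = ‖v‖ ^ 2 + ‖w‖ ^ 2

variable {Ψ : (ℝ × ℝ) × F ≃ᵐ E} {A : E2 × F →L[ℝ] E}

/-- the product domain -/
def OmE (Ψ : (ℝ × ℝ) × F ≃ᵐ E) : Set E := {y | (Ψ.symm y).1 ∈ dom}

theorem mem_OmE {X : (ℝ × ℝ) × F} : Ψ X ∈ OmE Ψ ↔ X.1 ∈ dom := by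
  show (Ψ.symm (Ψ X)).1 ∈ dom ↔ _
  rw [Ψ.symm_apply_apply]

theorem Emb.dist_sq (h : Emb Ψ A) (X Y : (ℝ × ℝ) × F) :
    dist (Ψ X) (Ψ Y) ^ 2 = dist (ptE X.1) (ptE Y.1) ^ 2 + ‖X.2 - Y.2‖ ^ 2 := by
  rw [dist_eq_norm, h.eq, h.eq, ← map_sub, Prod.mk_sub_mk, h.nrm, dist_eq_norm]

theorem Emb.nrm_le (h : Emb Ψ A) (v : E2) (w : F) : ‖A (v, w)‖ ≤ ‖v‖ + ‖w‖ := by
  apply le_of_sq_le_sq _ (by positivity)
  rw [h.nrm]
  nlinarith [mul_nonneg (norm_nonneg v) (norm_nonneg w)]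

theorem Bt_eq (h : Emb Ψ A) (X : (ℝ × ℝ) × F) {r : ℝ} (hr : 0 < r) :
    Bt X.1 X.2 r = Ψ ⁻¹' (ball (Ψ X) r ∩ OmE Ψ) := by
  ext Y
  have h1 : dist (Ψ Y) (Ψ X) < r ↔ q2 X.1 Y.1 + ‖Y.2 - X.2‖ ^ 2 < r ^ 2 := by
    rw [q2_eq, ← h.dist_sq]
    constructor
    · intro h1
      have := dist_nonneg (x := Ψ Y) (y := Ψ X)
      gcongr
    · intro h1
      exact lt_of_pow_lt_pow_left₀ 2 hr.le h1
  simp only [Bt, Set.mem_ofPred_eq, mem_preimage, mem_inter_iff, mem_ball, h1, mem_OmE]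
  tauto

theorem cr2_zero (X Y : (ℝ × ℝ) × F) : cr2 X Y 0 = X := by
  unfold cr2
  rw [cr_zero, zero_smul, add_zero]

theorem cr2_one (X Y : (ℝ × ℝ) × F) : cr2 X Y 1 = Y := by
  unfold cr2
  rw [cr_one, one_smul, add_sub_cancel]

theorem Emb.hasDerivAt (h : Emb Ψ A) (X Y : (ℝ × ℝ) × F) (s : ℝ) :
    HasDerivAt (fun s => Ψ (cr2 X Y s)) (A ((Y.1.1 - X.1.1) • (EuclideanSpace.single 0 1 : E2) +
      dys X.1 Y.1 s • (EuclideanSpace.single 1 1 : E2), Y.2 - X.2)) s := by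
  have h1 := hasDerivAt_cr X.1 Y.1 s
  have h2 : HasDerivAt (fun s : ℝ => X.2 + s • (Y.2 - X.2)) ((1 : ℝ) • (Y.2 - X.2)) s :=
    ((hasDerivAt_id s).smul_const (Y.2 - X.2)).const_add X.2
  rw [one_smul] at h2
  have h3 := A.hasFDerivAt.comp_hasDerivAt s (h1.prodMk h2)
  refine h3.congr_of_eventuallyEq (Filter.Eventually.of_forall fun t => ?_)
  simp only [h.eq, cr2, Function.comp]

theorem Emb.enorm_deriv (h : Emb Ψ A) (X Y : (ℝ × ℝ) × F) (s : ℝ) :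
    ‖deriv (fun s => Ψ (cr2 X Y s)) s‖ₑ ≤ ‖deriv (fun s => ptE (cr X.1 Y.1 s)) s‖ₑ + ‖Y.2 - X.2‖ₑ := by
  rw [(h.hasDerivAt X Y s).deriv, (hasDerivAt_cr X.1 Y.1 s).deriv, ← ofReal_norm, ← ofReal_norm,
    ← ofReal_norm, ← ENNReal.ofReal_add (norm_nonneg _) (norm_nonneg _)]
  exact ENNReal.ofReal_le_ofReal (h.nrm_le _ _)

theorem Emb.lip (h : Emb Ψ A) (X Y : (ℝ × ℝ) × F) :
    ∃ K : ℝ≥0, LipschitzOnWith K (fun s => Ψ (cr2 X Y s)) (Icc 0 1) := by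
  have hc : Continuous fun s => |Y.1.1 - X.1.1| + |dys X.1 Y.1 s| + ‖Y.2 - X.2‖ := by
    have := continuous_dys X.1 Y.1
    fun_prop
  obtain ⟨K, hK⟩ := isCompact_Icc.exists_bound_of_continuousOn (s := Icc (0 : ℝ) 1) hc.continuousOn
  refine ⟨K.toNNReal, (convex_Icc (0 : ℝ) 1).lipschitzOnWith_of_nnnorm_hasDerivWithin_le
    (fun s _ => (h.hasDerivAt X Y s).hasDerivWithinAt) fun s hs => ?_⟩
  rw [← NNReal.coe_le_coe, coe_nnnorm]
  refine ((h.nrm_le _ _).trans (add_le_add_left (norm_smul_le _ _) _)).trans ?_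
  refine le_trans ?_ (Real.le_coe_toNNReal K)
  exact (le_abs_self _).trans (hK s hs)

theorem cr2_ball {X Y Z : (ℝ × ℝ) × F} {r : ℝ} (hr : 0 < r) (hY : Y ∈ Bt X.1 X.2 r)
    (hZ : Z ∈ Bt X.1 X.2 r) {s : ℝ} (hs : s ∈ Icc (0 : ℝ) 1) : cr2 Y Z s ∈ Bt X.1 X.2 (6 * r) := by
  have h1 := cr_ball hr (Bt_Bs hY) (Bt_Bs hZ) hs
  refine ⟨h1.1, ?_⟩
  have h2 : q2 X.1 (cr Y.1 Z.1 s) < (5 * r) ^ 2 := h1.2
  have h3 := Bt_norm hr hY
  have h4 := Bt_norm hr hZ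
  have h5 : ‖Y.2 + s • (Z.2 - Y.2) - X.2‖ ≤ r := by
    have e : Y.2 + s • (Z.2 - Y.2) - X.2 = (1 - s) • (Y.2 - X.2) + s • (Z.2 - X.2) := by
      module
    rw [e]
    refine (norm_add_le _ _).trans ?_
    rw [norm_smul, norm_smul, Real.norm_of_nonneg (by linarith [hs.2]), Real.norm_of_nonneg hs.1]
    nlinarith [hs.1, hs.2]
  show q2 X.1 (cr Y.1 Z.1 s) + ‖Y.2 + s • (Z.2 - Y.2) - X.2‖ ^ 2 < (6 * r) ^ 2
  have h6 : ‖Y.2 + s • (Z.2 - Y.2) - X.2‖ ^ 2 ≤ r ^ 2 := by gcongr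
  nlinarith [sq_pos_of_pos hr]

theorem vol_Bt_lt_top (h : Emb Ψ A) (X : (ℝ × ℝ) × F) {r : ℝ} (hr : 0 < r) :
    volume (Bt X.1 X.2 r) < ∞ := by
  rw [Bt_eq h X hr, h.mp.measure_preimage_emb Ψ.measurableEmbedding]
  exact (measure_mono inter_subset_left).trans_lt measure_ball_lt_top

theorem vol_Bt_pos {X : (ℝ × ℝ) × F} {r : ℝ} (hX : X.1 ∈ dom) (hr : 0 < r) :
    0 < volume (Bt X.1 X.2 r) := by
  refine (isOpen_Bt X.1 X.2 r).measure_pos _ ⟨X, hX, ?_⟩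
  simp [q2]
  positivity

/-- the first two coordinates -/
noncomputable def prE (Ψ : (ℝ × ℝ) × F ≃ᵐ E) (y : E) : E2 := ptE (Ψ.symm y).1

theorem prE_Ψ (X : (ℝ × ℝ) × F) : prE Ψ (Ψ X) = ptE X.1 := by
  unfold prE
  rw [Ψ.symm_apply_apply]

theorem Emb.prE_dist (h : Emb Ψ A) (x y : E) : dist (prE Ψ x) (prE Ψ y) ≤ dist x y := by
  obtain ⟨X, rfl⟩ : ∃ X, Ψ X = x := ⟨Ψ.symm x, Ψ.apply_symm_apply x⟩
  obtain ⟨Y, rfl⟩ : ∃ Y, Ψ Y = y := ⟨Ψ.symm y, Ψ.apply_symm_apply y⟩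
  rw [prE_Ψ, prE_Ψ]
  apply le_of_sq_le_sq _ dist_nonneg
  rw [h.dist_sq]
  nlinarith [sq_nonneg ‖X.2 - Y.2‖]

theorem Emb.prE_lip (h : Emb Ψ A) : LipschitzWith 1 (prE Ψ) :=
  LipschitzWith.of_dist_le_mul fun x y => by simpa using h.prE_dist x y

theorem OmE_eq : OmE Ψ = prE Ψ ⁻¹' Om := by
  ext y
  exact mem_Om.symm

theorem Emb.isOpen (h : Emb Ψ A) : IsOpen (OmE Ψ) := by
  rw [OmE_eq]
  exact isOpen_Om.preimage h.prE_lip.continuous

theorem Emb.isConnected (h : Emb Ψ A) : IsConnected (OmE Ψ) := by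
  have e : OmE Ψ = A '' (Om ×ˢ univ) := by
    ext y
    constructor
    · intro hy
      refine ⟨(ptE (Ψ.symm y).1, (Ψ.symm y).2), ⟨mem_Om.2 hy, mem_univ _⟩, ?_⟩
      rw [← h.eq, Ψ.apply_symm_apply]
    · rintro ⟨⟨v, w⟩, ⟨hv, -⟩, rfl⟩
      obtain ⟨P, rfl⟩ := ptE_surj v
      have := h.eq (P, w)
      rw [← this]
      exact mem_OmE.2 (mem_Om.1 hv)
  rw [e]
  exact (isConnected_Om.prod isConnected_univ).image _ A.continuous.continuousOn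

theorem Emb.not_quasiconvex (h : Emb Ψ A) (K : ℝ) : ¬ ∀ x ∈ OmE Ψ, ∀ y ∈ OmE Ψ, ∃ γ : ℝ → E,
    ContinuousOn γ (Icc 0 1) ∧ γ 0 = x ∧ γ 1 = y ∧ (∀ t ∈ Icc (0 : ℝ) 1, γ t ∈ OmE Ψ) ∧
    eVariationOn γ (Icc 0 1) ≤ ENNReal.ofReal (K * dist x y) := by
  intro H
  apply Pool.Agent.KS6_41.QC.not_quasiconvex K
  intro x hx y hy
  obtain ⟨P, rfl⟩ := ptE_surj x
  obtain ⟨Q, rfl⟩ := ptE_surj y
  obtain ⟨γ, hc, h0, h1, hO, hv⟩ := H (Ψ (P, 0)) (mem_OmE.2 (mem_Om.1 hx)) (Ψ (Q, 0))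
    (mem_OmE.2 (mem_Om.1 hy))
  have hd : dist (Ψ (P, (0 : F))) (Ψ (Q, 0)) = dist (ptE P) (ptE Q) := by
    have := h.dist_sq (P, (0 : F)) (Q, 0)
    simp only [sub_zero, norm_zero, ne_eq, OfNat.ofNat_ne_zero, not_false_eq_true, zero_pow,
      add_zero] at this
    exact (pow_left_inj₀ dist_nonneg dist_nonneg two_ne_zero).1 this
  refine ⟨prE Ψ ∘ γ, h.prE_lip.continuous.comp_continuousOn hc, ?_, ?_, fun t ht => ?_, ?_⟩
  · rw [Function.comp_apply, h0, prE_Ψ]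
  · rw [Function.comp_apply, h1, prE_Ψ]
  · have := hO t ht
    rwa [OmE_eq] at this
  · have := (h.prE_lip.lipschitzOnWith (s := univ)).comp_eVariationOn_le (mapsTo_univ γ (Icc 0 1))
    rw [← hd]
    simpa using this.trans (by simpa using hv)

theorem Emb.pi_main (h : Emb Ψ A) {x : E} (hx : x ∈ OmE Ψ) {r : ℝ} (hr : 0 < r) (u : E → ℝ)
    (hu : LocallyIntegrableOn u (OmE Ψ)) (g : E → ℝ≥0∞) (hg : Measurable g)
    (hug : ∀ (γ : ℝ → E) (a b : ℝ) (K : ℝ≥0), a ≤ b → LipschitzOnWith K γ (Icc a b) →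
      (∀ t ∈ Icc a b, γ t ∈ OmE Ψ) →
        ‖u (γ a) - u (γ b)‖ₑ ≤ ∫⁻ t in Icc a b, g (γ t) * ‖deriv γ t‖ₑ) :
    ∫⁻ y in ball x r ∩ OmE Ψ, ‖u y - ⨍ z in ball x r ∩ OmE Ψ, u z‖ₑ ≤
      ENNReal.ofReal (Cst (finrank ℝ F) * r) *
        essSup g (volume.restrict (ball x (6 * r) ∩ OmE Ψ)) * volume (ball x r ∩ OmE Ψ) := by
  obtain ⟨X, rfl⟩ : ∃ X, Ψ X = x := ⟨Ψ.symm x, Ψ.apply_symm_apply x⟩
  rw [mem_OmE] at hx
  have hOm := h.isOpen.measurableSet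
  have hBm : MeasurableSet (Bt X.1 X.2 r) := (isOpen_Bt X.1 X.2 r).measurableSet
  have hBB5 : MeasurableSet (ball (Ψ X) (6 * r) ∩ OmE Ψ) := measurableSet_ball.inter hOm
  have hvol : volume (ball (Ψ X) r ∩ OmE Ψ) = volume (Bt X.1 X.2 r) := by
    rw [Bt_eq h X hr, h.mp.measure_preimage_emb Ψ.measurableEmbedding]
  have hmp : MeasurePreserving Ψ (volume.restrict (Bt X.1 X.2 r))
      (volume.restrict (ball (Ψ X) r ∩ OmE Ψ)) := by
    rw [Bt_eq h X hr]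
    exact h.mp.restrict_preimage_emb Ψ.measurableEmbedding _
  set M := essSup g (volume.restrict (ball (Ψ X) (6 * r) ∩ OmE Ψ)) with hM
  have hC := Cst_pos (finrank ℝ F)
  by_cases hMt : M = ∞
  · rw [hMt, ENNReal.mul_top (by simpa using mul_pos hC hr), ENNReal.top_mul]
    · exact le_top
    · rw [hvol]; exact (vol_Bt_pos hx hr).ne'
  · have hfin : IsFiniteMeasure (volume.restrict (Bt X.1 X.2 r)) :=
      ⟨by rw [Measure.restrict_apply_univ]; exact vol_Bt_lt_top h X hr⟩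
    have hne : volume.restrict (Bt X.1 X.2 r) ≠ 0 := by
      intro h
      have := (vol_Bt_pos hx hr).ne'
      rw [Measure.restrict_eq_zero] at h
      exact this h
    have hum : AEStronglyMeasurable (fun P => u (Ψ P)) (volume.restrict (Bt X.1 X.2 r)) := by
      have h1 : AEStronglyMeasurable u (volume.restrict (ball (Ψ X) r ∩ OmE Ψ)) :=
        hu.aestronglyMeasurable.mono_set inter_subset_right
      exact h1.comp_measurePreserving hmp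
    have hl : ∀ᵐ z ∂((volume.restrict (Bt X.1 X.2 r)).prod (volume.restrict (Bt X.1 X.2 r))),
        ‖u (Ψ z.1) - u (Ψ z.2)‖ₑ ≤ M * len2 z := by
      set N : Set ((ℝ × ℝ) × F) := Ψ ⁻¹' {y | y ∈ ball (Ψ X) (6 * r) ∩ OmE Ψ ∧ M < g y} with hN
      have hN0 : MeasurableSet {y | y ∈ ball (Ψ X) (6 * r) ∩ OmE Ψ ∧ M < g y} :=
        hBB5.inter (measurableSet_lt measurable_const hg)
      have hNm : MeasurableSet N := Ψ.measurable hN0
      have hNv : volume N = 0 := by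
        rw [hN, h.mp.measure_preimage_emb Ψ.measurableEmbedding]
        have h1 : ∀ᵐ y ∂(volume.restrict (ball (Ψ X) (6 * r) ∩ OmE Ψ)), g y ≤ M := ae_le_essSup
        rw [ae_restrict_iff' hBB5, ae_iff] at h1
        refine Eq.trans (congrArg _ (Set.ext fun y => ?_)) h1
        simp only [Set.mem_ofPred_eq]
        push Not
        rfl
      have hc := ae_curve2 hNm hNv
      rw [Measure.prod_restrict, ae_restrict_iff' (hBm.prod hBm)]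
      filter_upwards [hc] with z hz hzB
      obtain ⟨K, hK⟩ := h.lip z.1 z.2
      have h1 := hug (fun s => Ψ (cr2 z.1 z.2 s)) 0 1 K zero_le_one hK
        (fun t ht => mem_OmE.2 (cr_mem hzB.1.1 hzB.2.1 ht))
      simp only [cr2_zero, cr2_one] at h1
      refine h1.trans ?_
      have e : len2 z = ∫⁻ s in Icc (0 : ℝ) 1,
          (‖deriv (fun s => ptE (cr z.1.1 z.2.1 s)) s‖ₑ + ‖z.2.2 - z.1.2‖ₑ) := by
        rw [lintegral_add_right _ measurable_const, setLIntegral_const, Real.volume_Icc, sub_zero,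
          ENNReal.ofReal_one, mul_one]
        rfl
      rw [e, ← lintegral_const_mul' _ _ hMt]
      refine lintegral_mono_ae ?_
      filter_upwards [hz, ae_restrict_mem measurableSet_Icc] with s hs hsI
      refine mul_le_mul' ?_ (h.enorm_deriv z.1 z.2 s)
      by_contra hcon
      push Not at hcon
      apply hs
      have h2 := cr2_ball hr hzB.1 hzB.2 hsI
      rw [Bt_eq h X (by positivity : 0 < 6 * r)] at h2
      exact ⟨h2, hcon⟩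
    have key := poinc_abs (volume.restrict (Bt X.1 X.2 r)) hne (fun P => u (Ψ P)) hum M
      (ENNReal.ofReal (Cst (finrank ℝ F) * r)) hMt ENNReal.ofReal_ne_top (fun z => len2 z) hl
      (ball_est2 hx hr)
    rw [Measure.restrict_apply_univ] at key
    have hav : ⨍ q, u (Ψ q) ∂(volume.restrict (Bt X.1 X.2 r)) =
        ⨍ z in ball (Ψ X) r ∩ OmE Ψ, u z := by
      rw [average_eq, average_eq, hmp.integral_comp Ψ.measurableEmbedding]
      congr 2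
      rw [Measure.real, Measure.real, Measure.restrict_apply_univ, Measure.restrict_apply_univ, hvol]
    rw [hvol]
    refine le_trans (le_of_eq ?_) key
    rw [← hmp.lintegral_comp_emb Ψ.measurableEmbedding]
    rw [hav]

end Pool.Agent.KS6_41.QC
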