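import Pool.Agent.KS6_41.QC.Slope

set_option autoImplicit false

namespace Pool.Agent.KS6_41.QC

open Real Set MeasureTheory

noncomputable def wt (x : ℝ) : ℝ := exp (-(1000 * exp (-2 * x)))

noncomputable def dwt (x : ℝ) : ℝ := 2000 * exp (-2 * x) * wt x

theorem wt_pos (x : ℝ) : 0 < wt x := exp_pos _

theorem hasDerivAt_wt (x : ℝ) : HasDerivAt wt (dwt x) x := by
  have h1 : HasDerivAt (fun x : ℝ => -2 * x) (-2 * 1) x := (hasDerivAt_id x).const_mul (-2)
  have h2 := ((h1.exp.const_mul 1000).fun_neg).exp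
  refine h2.congr_deriv ?_
  unfold dwt wt
  ring

theorem continuous_wt : Continuous wt := by unfold wt; fun_prop

theorem continuous_dwt : Continuous dwt := by unfold dwt wt; fun_prop

theorem wt_mono {x y : ℝ} (h : x ≤ y) : wt x ≤ wt y := by
  unfold wt
  apply exp_le_exp.2
  apply neg_le_neg
  apply mul_le_mul_of_nonneg_left _ (by norm_num)
  apply exp_le_exp.2
  linarith

theorem sq_exp_le {t : ℝ} (ht : 0 ≤ t) : t ^ 2 * exp (-t) ≤ 2 := by
  have h := quadratic_le_exp_of_nonneg ht
  have h2 : exp t * exp (-t) = 1 := by rw [← exp_add]; simp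
  have h3 := exp_pos (-t)
  nlinarith

theorem one_le_exp2 {x : ℝ} (hx : x ≤ 0) : 1 ≤ exp (-2 * x) := by
  apply one_le_exp; linarith

/-- `wt x ≤ e^(4x) / 500000` -/
theorem wt_le (x : ℝ) : wt x * (500000 * exp (-2 * x) ^ 2) ≤ 1 := by
  have h := sq_exp_le (t := 1000 * exp (-2 * x)) (by positivity)
  unfold wt
  nlinarith

theorem wt_small {x : ℝ} (hx : x ≤ 0) : wt x ≤ 1 / 500000 := by
  have h := wt_le x
  have h1 := one_le_exp2 hx
  have h2 := wt_pos x
  have h3 : 1 ≤ exp (-2 * x) ^ 2 := by nlinarith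
  rw [le_div_iff₀ (by norm_num)]
  nlinarith

theorem dwt_nonneg (x : ℝ) : 0 ≤ dwt x := by
  unfold dwt
  have := wt_pos x
  positivity

theorem dwt_small {x : ℝ} (hx : x ≤ 0) : dwt x ≤ 1 / 8 := by
  have h := wt_le x
  have h1 := one_le_exp2 hx
  have h2 := wt_pos x
  unfold dwt
  have h3 : exp (-2 * x) ≤ exp (-2 * x) ^ 2 := by nlinarith
  nlinarith [mul_le_mul_of_nonneg_left h3 h2.le]

theorem w1 {x0 b r : ℝ} (hb : b ≤ 0) (hbr : b ≤ x0 + r) (hr : exp x0 / 2 ≤ r) :
    wt b * (64 * √(1 - x0)) ≤ r := by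
  have hx1 : √(1 - x0) ≤ 1 + (r - b) := by
    rw [Real.sqrt_le_left (by have := exp_pos x0; linarith)]
    have := exp_pos x0
    nlinarith
  have hb0 := wt_pos b
  have h1 := wt_le b
  set v := exp (-2 * b) with hv
  have hv1 : 1 ≤ v := one_le_exp2 hb
  have hvb : 1 - b ≤ v := by
    have := add_one_le_exp (-2 * b)
    rw [← hv] at this
    linarith
  rcases le_or_gt r 1 with hr1 | hr1
  · have h2 : exp (b - 1) / 2 ≤ r := by
      refine le_trans ?_ hr
      gcongr
      linarith
    have h3 : exp (b - 1) * (3 * v) ≥ 1 := by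
      have e1 : exp (b - 1) * v = exp (-b - 1) := by rw [hv, ← exp_add]; ring_nf
      have e2 : exp (-1) ≤ exp (-b - 1) := by gcongr; linarith
      have e3 : 1 / 3 ≤ exp (-1 : ℝ) := by
        rw [exp_neg, one_div]
        gcongr
        have := exp_one_lt_d9
        linarith
      nlinarith
    have h4 : √(1 - x0) ≤ 2 * v := by linarith
    have h5 : wt b * (64 * √(1 - x0)) ≤ wt b * (64 * (2 * v)) := by gcongr
    refine h5.trans (le_trans ?_ h2)
    have h6 : wt b * (v * v) ≤ 1 / 500000 := by nlinarith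
    have h7 : 0 < exp (b - 1) := exp_pos _
    have h8 : wt b * v ≤ exp (b - 1) * 3 * (1 / 500000) := by
      have : wt b * v * 1 ≤ wt b * v * (exp (b - 1) * (3 * v)) := by gcongr
      calc wt b * v ≤ wt b * v * (exp (b - 1) * (3 * v)) := by linarith
        _ = exp (b - 1) * 3 * (wt b * (v * v)) := by ring
        _ ≤ _ := by gcongr
    nlinarith
  · have h5 : wt b * (64 * √(1 - x0)) ≤ wt b * (64 * (2 * r * v)) := by
      gcongr
      nlinarith
    have h6 : wt b * v ≤ 1 / 500000 := by nlinarith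
    calc wt b * (64 * √(1 - x0)) ≤ wt b * (64 * (2 * r * v)) := h5
      _ = 128 * r * (wt b * v) := by ring
      _ ≤ 128 * r * (1 / 500000) := by gcongr
      _ ≤ r := by linarith

theorem wt_decay {x z : ℝ} (h : x ≤ z) : wt x ≤ wt z * exp (-(2000 * exp (-2 * z)) * (z - x)) := by
  unfold wt
  rw [← exp_add]
  gcongr 1
  have h1 : exp (-2 * x) = exp (-2 * z) * exp (2 * (z - x)) := by rw [← exp_add]; ring_nf
  have h2 := add_one_le_exp (2 * (z - x))
  have h3 := exp_pos (-2 * z)
  rw [h1]
  nlinarith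

theorem tail_pt {x z : ℝ} (hx : x ≤ z) (hz : z ≤ 0) :
    (2 + √(1 - x)) * (z - x) * wt x ≤
      3 * √(1 - z) * wt z / (1000 * exp (-2 * z)) * exp (500 * exp (-2 * z) * (x - z)) := by
  set κ := 1000 * exp (-2 * z) with hκ
  have hκ1 : 1000 ≤ κ := by
    have := one_le_exp2 hz
    linarith
  set s := z - x with hs
  have hs0 : 0 ≤ s := by linarith
  have hz1 : 1 ≤ √(1 - z) := by rw [Real.one_le_sqrt]; linarith
  have h1 : 2 + √(1 - x) ≤ 3 * √(1 - z) * exp s := by
    have e1 : √(1 - x) ≤ √(1 - z) * (1 + s) := by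
      rw [Real.sqrt_le_left (by positivity), mul_pow, Real.sq_sqrt (by linarith)]
      have e3 : 1 - x = (1 - z) + s := by rw [hs]; ring
      rw [e3]
      nlinarith [mul_nonneg hs0 hs0, mul_nonneg (by linarith : (0 : ℝ) ≤ -z) hs0,
        mul_nonneg (by linarith : (0 : ℝ) ≤ -z) (mul_nonneg hs0 hs0)]
    have e2 := add_one_le_exp s
    nlinarith
  have h2 : s * exp (-(κ * s)) ≤ 1 / κ := by
    have e1 := add_one_le_exp (κ * s)
    have e2 : exp (κ * s) * exp (-(κ * s)) = 1 := by rw [← exp_add]; simp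
    have e3 := exp_pos (-(κ * s))
    rw [le_div_iff₀ (by linarith)]
    nlinarith
  have h3 : wt x ≤ wt z * exp (-(2 * κ) * s) := by
    have := wt_decay hx
    rw [show -(2 * κ) * s = -(2000 * exp (-2 * z)) * (z - x) by rw [hκ, hs]; ring]
    exact this
  calc (2 + √(1 - x)) * s * wt x ≤ (3 * √(1 - z) * exp s) * s * (wt z * exp (-(2 * κ) * s)) := by
        have := (wt_pos x).le
        gcongr
    _ = 3 * √(1 - z) * wt z * (s * exp (-(κ * s))) * exp (s - κ * s) := by
        have e1 : exp (-(2 * κ) * s) = exp (-(κ * s)) * exp (-(κ * s)) := by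
          rw [← exp_add]; ring_nf
        have e2 : exp (s - κ * s) = exp s * exp (-(κ * s)) := by
          rw [← exp_add]; ring_nf
        rw [e1, e2]
        ring
    _ ≤ 3 * √(1 - z) * wt z * (1 / κ) * exp (500 * exp (-2 * z) * (x - z)) := by
        have := wt_pos z
        have e3 : s - κ * s ≤ 500 * exp (-2 * z) * (x - z) := by
          have : 500 * exp (-2 * z) * (x - z) = -(κ / 2 * s) := by rw [hκ, hs]; ring
          rw [this]
          nlinarith
        gcongr
    _ = _ := by rw [mul_one_div]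

theorem tail_int {z : ℝ} (hz : z ≤ 0) :
    ∫⁻ x in Iic z, ENNReal.ofReal ((2 + √(1 - x)) * (z - x) * wt x) ≤
      ENNReal.ofReal (6 * √(1 - z) * wt z / (1000 * exp (-2 * z)) ^ 2) := by
  have hc : 0 < 500 * exp (-2 * z) := by positivity
  calc ∫⁻ x in Iic z, ENNReal.ofReal ((2 + √(1 - x)) * (z - x) * wt x)
      ≤ ∫⁻ x in Iic z, ENNReal.ofReal (3 * √(1 - z) * wt z / (1000 * exp (-2 * z)) *
          exp (500 * exp (-2 * z) * (x - z))) := by
        refine setLIntegral_mono' measurableSet_Iic fun x hx => ENNReal.ofReal_le_ofReal (tail_pt hx hz)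
    _ = ENNReal.ofReal (∫ x in Iic z, 3 * √(1 - z) * wt z / (1000 * exp (-2 * z)) *
          exp (500 * exp (-2 * z) * (x - z))) := by
        rw [ofReal_integral_eq_lintegral_ofReal]
        · have h1 := (integrableOn_exp_mul_Iic hc z).const_mul (3 * √(1 - z) * wt z / (1000 * exp (-2 * z)) *
            exp (-(500 * exp (-2 * z) * z)))
          refine h1.congr (Filter.Eventually.of_forall fun x => ?_)
          simp only
          rw [mul_assoc, ← exp_add]
          ring_nf
        · refine Filter.Eventually.of_forall fun x => ?_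
          have := wt_pos z
          positivity
    _ ≤ _ := by
        apply ENNReal.ofReal_le_ofReal
        rw [integral_const_mul]
        have e1 : ∫ x in Iic z, exp (500 * exp (-2 * z) * (x - z)) = 1 / (500 * exp (-2 * z)) := by
          have e2 : ∀ x, exp (500 * exp (-2 * z) * (x - z)) =
              exp (-(500 * exp (-2 * z) * z)) * exp (500 * exp (-2 * z) * x) := by
            intro x; rw [← exp_add]; ring_nf
          simp only [e2]
          rw [integral_const_mul, integral_exp_mul_Iic hc, mul_div_assoc', ← exp_add]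
          simp
        rw [e1]
        apply le_of_eq
        have := exp_pos (-2 * z)
        field_simp
        ring

theorem w3 {x0 z r : ℝ} (hx0 : x0 ≤ 0) (hz : z ≤ 0) (hzr : z ≤ x0 + r) (hr : exp x0 / 2 ≤ r) :
    6 * √(1 - z) * wt z / (1000 * exp (-2 * z)) ^ 2 ≤ r * (1 / (64 * (1 - x0)) * min r 1 * wt z) := by
  have hr0 : 0 < r := lt_of_lt_of_le (by positivity) hr
  have hz0 := wt_pos z
  set q := exp (-z) with hq
  have hv : exp (-2 * z) = q ^ 2 := by rw [hq, sq, ← exp_add]; ring_nf
  have hqz : 1 - z ≤ q := by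
    have := add_one_le_exp (-z)
    rw [← hq] at this
    linarith
  have hq1 : 1 ≤ q := by linarith
  have hsq : √(1 - z) ≤ q := by
    rw [Real.sqrt_le_left (by linarith)]
    nlinarith
  rw [hv]
  have key : 384 * √(1 - z) * (1 - x0) ≤ 1000000 * q ^ 4 * (r * min r 1) := by
    rcases le_or_gt r 1 with hr1 | hr1
    · rw [min_eq_left hr1]
      have h1 : 1 / 6 ≤ r * q := by
        have e1 : exp (z - 1) / 2 ≤ r := by
          refine le_trans ?_ hr
          gcongr
          linarith
        have e2 : exp (z - 1) * q = exp (-1) := by rw [hq, ← exp_add]; ring_nf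
        have e3 : 1 / 3 ≤ exp (-1 : ℝ) := by
          rw [exp_neg, one_div]
          gcongr
          have := exp_one_lt_d9
          linarith
        nlinarith
      have h2 : 1 - x0 ≤ 2 * q := by linarith
      have h3 : 1 / 36 ≤ r * q * (r * q) := by nlinarith
      calc 384 * √(1 - z) * (1 - x0) ≤ 384 * q * (2 * q) := by
            gcongr
            linarith
        _ ≤ 1000000 * q ^ 2 * (1 / 36) := by nlinarith
        _ ≤ 1000000 * q ^ 2 * (r * q * (r * q)) := by gcongr
        _ = _ := by ring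
    · rw [min_eq_right hr1.le, mul_one]
      have h2 : 1 - x0 ≤ 2 * r * q := by nlinarith
      have h4 : q ^ 2 ≤ q ^ 4 := pow_le_pow_right₀ hq1 (by norm_num)
      calc 384 * √(1 - z) * (1 - x0) ≤ 384 * q * (2 * r * q) := by
            gcongr
            linarith
        _ = 768 * r * q ^ 2 := by ring
        _ ≤ 768 * r * q ^ 4 := by gcongr
        _ ≤ _ := by nlinarith [mul_pos hr0 (by positivity : 0 < q ^ 4)]
  rw [div_le_iff₀ (by positivity)]
  have hx1 : 0 < 1 - x0 := by linarith
  have e : r * (1 / (64 * (1 - x0)) * min r 1 * wt z) * (1000 * q ^ 2) ^ 2 =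
      wt z * (1000000 * q ^ 4 * (r * min r 1)) / (64 * (1 - x0)) := by
    field_simp
    ring
  rw [e, le_div_iff₀ (by positivity)]
  nlinarith

end Pool.Agent.KS6_41.QC
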